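import Pool.Agent.H29.DEC.Defs

/-!
# PLA: rotations and dilations of the euclidean plane

Measure preserving: `rotL` via `LinearIsometryEquiv.measurePreserving`; `dilL` via
`MeasureTheory.Measure.map_linearMap_addHaar_eq_smul_addHaar` (determinant `1`), or via
`EuclideanSpace.volume_preserving_...` and products.
-/

namespace Pool.H29.DEC

open MeasureTheory Filter Topology
open scoped InnerProductSpace

noncomputable section

theorem pla_ext {x y : V2} (h0 : x 0 = y 0) (h1 : x 1 = y 1) : x = y := by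
  ext i
  fin_cases i
  · exact h0
  · exact h1

theorem pla_rot_zero (θ : ℝ) (x : V2) :
    rot2 θ x 0 = Real.cos θ * x 0 - Real.sin θ * x 1 := rfl

theorem pla_rot_one (θ : ℝ) (x : V2) :
    rot2 θ x 1 = Real.sin θ * x 0 + Real.cos θ * x 1 := rfl

theorem pla_dil_zero (s : ℝ) (x : V2) : dil2 s x 0 = Real.exp s * x 0 := rfl

theorem pla_dil_one (s : ℝ) (x : V2) : dil2 s x 1 = Real.exp (-s) * x 1 := rfl

theorem pla_inner (x y : V2) : ⟪x, y⟫_ℝ = x 0 * y 0 + x 1 * y 1 := by
  rw [PiLp.inner_apply, Fin.sum_univ_two]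
  simp only [RCLike.inner_apply, conj_trivial]
  ring

theorem rot2_rot2 (θ θ' : ℝ) (x : V2) : rot2 θ (rot2 θ' x) = rot2 (θ + θ') x := by
  apply pla_ext
  · rw [pla_rot_zero, pla_rot_zero, pla_rot_one, pla_rot_zero, Real.cos_add, Real.sin_add]
    ring
  · rw [pla_rot_one, pla_rot_zero, pla_rot_one, pla_rot_one, Real.cos_add, Real.sin_add]
    ring

theorem pla_rot_id (x : V2) : rot2 0 x = x := by
  apply pla_ext
  · rw [pla_rot_zero, Real.cos_zero, Real.sin_zero]
    ring
  · rw [pla_rot_one, Real.cos_zero, Real.sin_zero]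
    ring

/-- The rotation as a linear equivalence. -/
def plaRotE (θ : ℝ) : V2 ≃ₗ[ℝ] V2 where
  toFun := rot2 θ
  invFun := rot2 (-θ)
  map_add' x y := by
    apply pla_ext
    · rw [PiLp.add_apply, pla_rot_zero, pla_rot_zero, pla_rot_zero, PiLp.add_apply,
        PiLp.add_apply]
      ring
    · rw [PiLp.add_apply, pla_rot_one, pla_rot_one, pla_rot_one, PiLp.add_apply,
        PiLp.add_apply]
      ring
  map_smul' c x := by
    apply pla_ext
    · rw [PiLp.smul_apply, pla_rot_zero, pla_rot_zero, PiLp.smul_apply, PiLp.smul_apply]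
      simp only [smul_eq_mul, RingHom.id_apply]
      ring
    · rw [PiLp.smul_apply, pla_rot_one, pla_rot_one, PiLp.smul_apply, PiLp.smul_apply]
      simp only [smul_eq_mul, RingHom.id_apply]
      ring
  left_inv x := by
    show rot2 (-θ) (rot2 θ x) = x
    rw [rot2_rot2, neg_add_cancel, pla_rot_id]
  right_inv x := by
    show rot2 θ (rot2 (-θ) x) = x
    rw [rot2_rot2, add_neg_cancel, pla_rot_id]

/-- The dilation as a linear equivalence. -/
def plaDilE (s : ℝ) : V2 ≃ₗ[ℝ] V2 where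
  toFun := dil2 s
  invFun := dil2 (-s)
  map_add' x y := by
    apply pla_ext
    · rw [PiLp.add_apply, pla_dil_zero, pla_dil_zero, pla_dil_zero, PiLp.add_apply]
      ring
    · rw [PiLp.add_apply, pla_dil_one, pla_dil_one, pla_dil_one, PiLp.add_apply]
      ring
  map_smul' c x := by
    apply pla_ext
    · rw [PiLp.smul_apply, pla_dil_zero, pla_dil_zero, PiLp.smul_apply]
      simp only [smul_eq_mul, RingHom.id_apply]
      ring
    · rw [PiLp.smul_apply, pla_dil_one, pla_dil_one, PiLp.smul_apply]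
      simp only [smul_eq_mul, RingHom.id_apply]
      ring
  left_inv x := by
    show dil2 (-s) (dil2 s x) = x
    apply pla_ext
    · rw [pla_dil_zero, pla_dil_zero, ← mul_assoc, ← Real.exp_add, neg_add_cancel,
        Real.exp_zero, one_mul]
    · rw [pla_dil_one, pla_dil_one, ← mul_assoc, ← Real.exp_add, neg_neg, add_neg_cancel,
        Real.exp_zero, one_mul]
  right_inv x := by
    show dil2 s (dil2 (-s) x) = x
    apply pla_ext
    · rw [pla_dil_zero, pla_dil_zero, ← mul_assoc, ← Real.exp_add, add_neg_cancel,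
        Real.exp_zero, one_mul]
    · rw [pla_dil_one, pla_dil_one, ← mul_assoc, ← Real.exp_add, neg_neg, neg_add_cancel,
        Real.exp_zero, one_mul]

/-- `rot2 θ` as a continuous linear equivalence -/
theorem exists_rotL (θ : ℝ) : ∃ B : V2 ≃L[ℝ] V2, ∀ x, B x = rot2 θ x :=
  ⟨(plaRotE θ).toContinuousLinearEquiv, fun _ => rfl⟩

/-- `dil2 s` as a continuous linear equivalence -/
theorem exists_dilL (s : ℝ) : ∃ B : V2 ≃L[ℝ] V2, ∀ x, B x = dil2 s x :=
  ⟨(plaDilE s).toContinuousLinearEquiv, fun _ => rfl⟩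

theorem inner_rot2 (θ : ℝ) (x y : V2) : ⟪rot2 (-θ) x, y⟫_ℝ = ⟪x, rot2 θ y⟫_ℝ := by
  rw [pla_inner, pla_inner, pla_rot_zero, pla_rot_one, pla_rot_zero, pla_rot_one,
    Real.cos_neg, Real.sin_neg]
  ring

theorem norm_rot2 (θ : ℝ) (x : V2) : ‖rot2 θ x‖ = ‖x‖ := by
  have h1 : ⟪rot2 θ x, rot2 θ x⟫_ℝ = ⟪x, x⟫_ℝ := by
    rw [pla_inner, pla_inner, pla_rot_zero, pla_rot_one]
    have h2 := Real.sin_sq_add_cos_sq θ
    linear_combination (x 0 ^ 2 + x 1 ^ 2) * h2
  rw [real_inner_self_eq_norm_sq, real_inner_self_eq_norm_sq] at h1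
  exact (sq_eq_sq₀ (norm_nonneg _) (norm_nonneg _)).1 h1

theorem inner_dil2 (s : ℝ) (x y : V2) : ⟪dil2 s x, y⟫_ℝ = ⟪x, dil2 s y⟫_ℝ := by
  rw [pla_inner, pla_inner, pla_dil_zero, pla_dil_one, pla_dil_zero, pla_dil_one]
  ring

theorem mp_rot2 (θ : ℝ) : MeasurePreserving (rot2 θ) volume volume := by
  let e : V2 ≃ₗᵢ[ℝ] V2 := ⟨plaRotE θ, fun x => norm_rot2 θ x⟩
  exact e.measurePreserving

theorem pla_det (s : ℝ) : LinearMap.det (plaDilE s : V2 →ₗ[ℝ] V2) = 1 := by
  rw [← LinearMap.det_toMatrix (EuclideanSpace.basisFun (Fin 2) ℝ).toBasis,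
    Matrix.det_fin_two]
  have h : ∀ i j, LinearMap.toMatrix (EuclideanSpace.basisFun (Fin 2) ℝ).toBasis
      (EuclideanSpace.basisFun (Fin 2) ℝ).toBasis (plaDilE s : V2 →ₗ[ℝ] V2) i j =
      dil2 s (EuclideanSpace.single j 1) i := by
    intro i j
    rw [LinearMap.toMatrix_apply]
    simp
    rfl
  rw [h, h, h, h]
  simp only [pla_dil_zero, pla_dil_one]
  simp [← Real.exp_add]

theorem mp_dil2 (s : ℝ) : MeasurePreserving (dil2 s) volume volume := by
  have hc : Continuous (dil2 s) := (plaDilE s).toContinuousLinearEquiv.continuous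
  refine ⟨hc.measurable, ?_⟩
  have h1 := MeasureTheory.Measure.map_linearMap_addHaar_eq_smul_addHaar (volume : Measure V2)
    (f := (plaDilE s : V2 →ₗ[ℝ] V2)) (by rw [pla_det]; exact one_ne_zero)
  rw [pla_det] at h1
  simp only [inv_one, abs_one, ENNReal.ofReal_one, one_smul] at h1
  exact h1

end

end Pool.H29.DEC
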