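import Pool.Agent.H29.DEC.Tst
import Pool.Agent.H29.DEC.Pla

/-!
# CUT: the radial and angular cut-offs

`Real.smoothTransition` is `0` for `x ≤ 0`, `1` for `x ≥ 1`, in `[0,1]`, smooth.
`rh t ξ = th (t ξ) - th (ξ/t)` for `0 < t ≤ 1/2`: where `th (ξ/t) ≠ 0` one has `‖ξ‖² < 2 t²`, so
`‖t ξ‖² ≤ 1` and `th (t ξ) = 1`.  `rh t ξ = 0` for `‖ξ‖ ≤ t`.  The function `al δ` is smooth away from `0`.
-/

namespace Pool.H29.DEC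

open MeasureTheory Filter Topology
open scoped InnerProductSpace ContDiff

noncomputable section

theorem cut_th_eq_zero {ξ : V2} (h : 2 ≤ ‖ξ‖ ^ 2) : th ξ = 0 := by
  unfold th
  rw [Real.smoothTransition.one_of_one_le (by linarith), sub_self]

theorem cut_th_eq_one {ξ : V2} (h : ‖ξ‖ ^ 2 ≤ 1) : th ξ = 1 := by
  unfold th
  rw [Real.smoothTransition.zero_of_nonpos (by linarith), sub_zero]

theorem cut_th_smooth : ContDiff ℝ ∞ th := by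
  unfold th
  exact contDiff_const.sub (Real.smoothTransition.contDiff.comp
    ((contDiff_norm_sq ℝ).sub contDiff_const))

theorem th_tst : Tst th := by
  refine ⟨cut_th_smooth, ?_⟩
  refine HasCompactSupport.intro (isCompact_closedBall (0 : V2) 2) ?_
  intro ξ hξ
  apply cut_th_eq_zero
  rw [Metric.mem_closedBall, dist_zero_right, not_le] at hξ
  nlinarith

theorem th_zero : th 0 = 1 := by
  apply cut_th_eq_one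
  simp

theorem th_nonneg (ξ : V2) : 0 ≤ th ξ := by
  unfold th
  linarith [Real.smoothTransition.le_one (‖ξ‖ ^ 2 - 1)]

theorem th_le_one (ξ : V2) : th ξ ≤ 1 := by
  unfold th
  linarith [Real.smoothTransition.nonneg (‖ξ‖ ^ 2 - 1)]

theorem cut_norm_sq (ξ : V2) : ‖ξ‖ ^ 2 = ξ 0 ^ 2 + ξ 1 ^ 2 := by
  rw [EuclideanSpace.norm_sq_eq, Fin.sum_univ_two, Real.norm_eq_abs, Real.norm_eq_abs, sq_abs,
    sq_abs]

theorem th_rot2 (θ : ℝ) (ξ : V2) : th (rot2 θ ξ) = th ξ := by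
  unfold th
  have h : ‖rot2 θ ξ‖ ^ 2 = ‖ξ‖ ^ 2 := by
    rw [cut_norm_sq, cut_norm_sq]
    have h0 : rot2 θ ξ 0 = Real.cos θ * ξ 0 - Real.sin θ * ξ 1 := rfl
    have h1 : rot2 θ ξ 1 = Real.sin θ * ξ 0 + Real.cos θ * ξ 1 := rfl
    rw [h0, h1]
    have h2 := Real.sin_sq_add_cos_sq θ
    linear_combination (ξ 0 ^ 2 + ξ 1 ^ 2) * h2
  rw [h]

theorem cut_comp_tst {c : ℝ} (hc : 0 < c) : Tst (fun ξ : V2 => th (c • ξ)) := by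
  refine ⟨cut_th_smooth.comp (contDiff_const_smul c), ?_⟩
  refine HasCompactSupport.intro (isCompact_closedBall (0 : V2) (2 / c)) ?_
  intro ξ hξ
  apply cut_th_eq_zero
  rw [Metric.mem_closedBall, dist_zero_right, not_le, div_lt_iff₀ hc] at hξ
  rw [norm_smul, Real.norm_eq_abs, abs_of_pos hc]
  nlinarith

theorem rh_tst {t : ℝ} (ht : 0 < t) : Tst (rh t) := by
  have h1 := cut_comp_tst ht
  have h2 := cut_comp_tst (inv_pos.2 ht)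
  exact ⟨h1.1.sub h2.1, h1.2.sub h2.2⟩

theorem cut_scale {c : ℝ} (hc : 0 < c) (ξ : V2) : ‖c • ξ‖ ^ 2 = c ^ 2 * ‖ξ‖ ^ 2 := by
  rw [norm_smul, Real.norm_eq_abs, abs_of_pos hc, mul_pow]

theorem rh_nonneg {t : ℝ} (ht : 0 < t) (ht' : t ≤ 1 / 2) (ξ : V2) : 0 ≤ rh t ξ := by
  unfold rh
  by_cases h : 2 ≤ ‖t⁻¹ • ξ‖ ^ 2
  · rw [cut_th_eq_zero h, sub_zero]
    exact th_nonneg _
  · rw [not_le, cut_scale (inv_pos.2 ht), inv_pow, inv_mul_lt_iff₀ (by positivity)] at h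
    rw [cut_th_eq_one (ξ := t • ξ), sub_nonneg]
    · exact th_le_one _
    · rw [cut_scale ht]
      have h1 : t ^ 2 ≤ 1 / 4 := by nlinarith
      have h2 : 0 ≤ t ^ 2 := sq_nonneg t
      have h3 : 0 ≤ ‖ξ‖ ^ 2 := sq_nonneg _
      nlinarith

theorem rh_le_one {t : ℝ} (ξ : V2) : rh t ξ ≤ 1 := by
  unfold rh
  linarith [th_le_one (t • ξ), th_nonneg (t⁻¹ • ξ)]

theorem rh_eq_zero {t : ℝ} (ht : 0 < t) (ht' : t ≤ 1 / 2) (ξ : V2) (h : ‖ξ‖ ≤ t) :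
    rh t ξ = 0 := by
  unfold rh
  have h0 : 0 ≤ ‖ξ‖ := norm_nonneg ξ
  have h1 : ‖ξ‖ ^ 2 ≤ t ^ 2 := pow_le_pow_left₀ h0 h 2
  rw [cut_th_eq_one (ξ := t • ξ), cut_th_eq_one (ξ := t⁻¹ • ξ), sub_self]
  · rw [cut_scale (inv_pos.2 ht), inv_pow, inv_mul_le_iff₀ (by positivity), mul_one]
    exact h1
  · rw [cut_scale ht]
    have h2 : t ^ 2 ≤ 1 / 4 := by nlinarith
    have h3 : 0 ≤ ‖ξ‖ ^ 2 := sq_nonneg _
    nlinarith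

theorem al_nonneg (δ : ℝ) (ξ : V2) : 0 ≤ al δ ξ := by
  unfold al
  linarith [Real.smoothTransition.le_one ((ξ 1 ^ 2 / (δ ^ 2 * ‖ξ‖ ^ 2) - 1) / 3)]

theorem al_le_one (δ : ℝ) (ξ : V2) : al δ ξ ≤ 1 := by
  unfold al
  linarith [Real.smoothTransition.nonneg ((ξ 1 ^ 2 / (δ ^ 2 * ‖ξ‖ ^ 2) - 1) / 3)]

theorem cut_al_smooth {δ : ℝ} (hδ : 0 < δ) {ξ : V2} (hξ : ξ ≠ 0) : ContDiffAt ℝ ∞ (al δ) ξ := by
  unfold al
  have h1 : ContDiffAt ℝ ∞ (fun ξ : V2 => ξ 1 ^ 2) ξ :=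
    ((EuclideanSpace.proj (𝕜 := ℝ) (1 : Fin 2)).contDiff.pow 2).contDiffAt
  have h2 : ContDiffAt ℝ ∞ (fun ξ : V2 => δ ^ 2 * ‖ξ‖ ^ 2) ξ :=
    (contDiff_const.mul (contDiff_norm_sq ℝ)).contDiffAt
  have h3 : δ ^ 2 * ‖ξ‖ ^ 2 ≠ 0 := by
    have : 0 < ‖ξ‖ := norm_pos_iff.2 hξ
    positivity
  have h4 : ContDiffAt ℝ ∞ (fun ξ : V2 => (ξ 1 ^ 2 / (δ ^ 2 * ‖ξ‖ ^ 2) - 1) / 3) ξ :=
    ((h1.div h2 h3).sub contDiffAt_const).div_const 3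
  exact contDiffAt_const.sub (Real.smoothTransition.contDiff.contDiffAt.comp ξ h4)

theorem rh_al_tst {t : ℝ} (ht : 0 < t) (ht' : t ≤ 1 / 2) {δ : ℝ} (hδ : 0 < δ) :
    Tst (fun ξ => rh t ξ * al δ ξ) := by
  refine ⟨?_, (rh_tst ht).2.mul_right⟩
  rw [contDiff_iff_contDiffAt]
  intro ξ
  by_cases hξ : ξ = 0
  · have h1 : (fun ξ : V2 => rh t ξ * al δ ξ) =ᶠ[𝓝 ξ] fun _ => (0 : ℝ) := by
      rw [hξ]
      filter_upwards [Metric.closedBall_mem_nhds (0 : V2) ht] with η hη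
      rw [Metric.mem_closedBall, dist_zero_right] at hη
      rw [rh_eq_zero ht ht' η hη, zero_mul]
    exact contDiffAt_const.congr_of_eventuallyEq h1
  · exact (rh_tst ht).1.contDiffAt.mul (cut_al_smooth hδ hξ)

theorem cut_pos {t : ℝ} (ht : 0 < t) (ht' : t ≤ 1 / 2) (ξ : V2) (h : rh t ξ ≠ 0) : 0 < ‖ξ‖ := by
  by_contra hc
  exact h (rh_eq_zero ht ht' ξ ((not_lt.1 hc).trans ht.le))

theorem rh_al_ne {t : ℝ} (ht : 0 < t) (ht' : t ≤ 1 / 2) {δ : ℝ} (hδ : 0 < δ) (ξ : V2)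
    (h : rh t ξ * al δ ξ ≠ 0) : |ξ 1| < 2 * δ * ‖ξ‖ := by
  have h1 : 0 < ‖ξ‖ := cut_pos ht ht' ξ (left_ne_zero_of_mul h)
  have h2 : al δ ξ ≠ 0 := right_ne_zero_of_mul h
  have h3 : (ξ 1 ^ 2 / (δ ^ 2 * ‖ξ‖ ^ 2) - 1) / 3 < 1 := by
    by_contra hc
    apply h2
    unfold al
    rw [Real.smoothTransition.one_of_one_le (not_lt.1 hc), sub_self]
  have h4 : ξ 1 ^ 2 / (δ ^ 2 * ‖ξ‖ ^ 2) < 4 := by linarith
  rw [div_lt_iff₀ (by positivity)] at h4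
  apply abs_lt_of_sq_lt_sq
  · calc ξ 1 ^ 2 < 4 * (δ ^ 2 * ‖ξ‖ ^ 2) := h4
      _ = (2 * δ * ‖ξ‖) ^ 2 := by ring
  · positivity

theorem rh_al_ne' {t : ℝ} (ht : 0 < t) (ht' : t ≤ 1 / 2) {δ : ℝ} (hδ : 0 < δ) (ξ : V2)
    (h : rh t ξ - rh t ξ * al δ ξ ≠ 0) : δ * ‖ξ‖ < |ξ 1| := by
  have h0 : rh t ξ * (1 - al δ ξ) ≠ 0 := by
    intro hc
    apply h
    rw [← hc]
    ring
  have h1 : 0 < ‖ξ‖ := cut_pos ht ht' ξ (left_ne_zero_of_mul h0)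
  have h2 : 1 - al δ ξ ≠ 0 := right_ne_zero_of_mul h0
  have h3 : 0 < (ξ 1 ^ 2 / (δ ^ 2 * ‖ξ‖ ^ 2) - 1) / 3 := by
    by_contra hc
    apply h2
    unfold al
    rw [Real.smoothTransition.zero_of_nonpos (not_lt.1 hc)]
    ring
  have h4 : 1 < ξ 1 ^ 2 / (δ ^ 2 * ‖ξ‖ ^ 2) := by linarith
  rw [lt_div_iff₀ (by positivity), one_mul] at h4
  have h5 : (δ * ‖ξ‖) ^ 2 < ξ 1 ^ 2 := by
    calc (δ * ‖ξ‖) ^ 2 = δ ^ 2 * ‖ξ‖ ^ 2 := by ring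
      _ < ξ 1 ^ 2 := h4
  have h6 := sq_lt_sq.1 h5
  rwa [abs_of_nonneg (by positivity)] at h6

end

end Pool.H29.DEC
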