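import Mathlib

/-!
# Decay of matrix coefficients : definitions

`VRep V H` : a strongly continuous isometric representation of the additive group of a finite
dimensional real inner product space `V` on a Hilbert space `H`.
For a real test function `f` on (the dual of) `V`, `op f φ = ∫ (𝓕⁻ f)(x) N(x) φ dx`.
-/

namespace Pool.H29.DEC

open MeasureTheory Filter Topology
open scoped FourierTransform SchwartzMap InnerProductSpace ContDiff

noncomputable section

/-- Strongly continuous isometric representation of the vector group `V`. -/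
structure VRep (V H : Type) [NormedAddCommGroup V] [InnerProductSpace ℝ V]
    [NormedAddCommGroup H] [InnerProductSpace ℂ H] where
  /-- the operators -/
  N : V → H →L[ℂ] H
  zero : ∀ φ, N 0 φ = φ
  add : ∀ x y φ, N (x + y) φ = N x (N y φ)
  isom : ∀ x φ, ‖N x φ‖ = ‖φ‖
  cont : ∀ φ, Continuous (fun x => N x φ)

/-- Smooth functions with compact support. -/
def Tst {V : Type} [NormedAddCommGroup V] [InnerProductSpace ℝ V] (f : V → ℝ) : Prop :=
  ContDiff ℝ ∞ f ∧ HasCompactSupport f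

variable {V : Type} [NormedAddCommGroup V] [InnerProductSpace ℝ V] [FiniteDimensional ℝ V]
  [MeasurableSpace V] [BorelSpace V]
variable {H : Type} [NormedAddCommGroup H] [InnerProductSpace ℂ H] [CompleteSpace H]

/-- The inverse Fourier transform of a real function. -/
def ker (f : V → ℝ) : V → ℂ := 𝓕⁻ (fun ξ => (f ξ : ℂ))

/-- `op f φ = ∫ (𝓕⁻ f)(x) N(x) φ dx` -/
def VRep.op (R : VRep V H) (f : V → ℝ) (φ : H) : H := ∫ x, ker f x • R.N x φ

/-- the euclidean plane -/
abbrev V2 : Type := EuclideanSpace ℝ (Fin 2)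

/-- rotation of the plane -/
def rot2 (θ : ℝ) (x : V2) : V2 :=
  !₂[Real.cos θ * x 0 - Real.sin θ * x 1, Real.sin θ * x 0 + Real.cos θ * x 1]

/-- the hyperbolic dilation `(x,y) ↦ (e^s x, e^{-s} y)` -/
def dil2 (s : ℝ) (x : V2) : V2 := !₂[Real.exp s * x 0, Real.exp (-s) * x 1]

/-- radial cut-off: `1` on the ball of radius one, `0` for `‖ξ‖² ≥ 2` -/
def th (ξ : V2) : ℝ := 1 - Real.smoothTransition (‖ξ‖ ^ 2 - 1)

/-- radial cut-off supported away from `0`: used for `0 < t ≤ 1/2` -/
def rh (t : ℝ) (ξ : V2) : ℝ := th (t • ξ) - th (t⁻¹ • ξ)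

/-- angular cut-off: `1` for `|ξ 1| ≤ δ ‖ξ‖`, `0` for `|ξ 1| ≥ 2 δ ‖ξ‖` -/
def al (δ : ℝ) (ξ : V2) : ℝ := 1 - Real.smoothTransition ((ξ 1 ^ 2 / (δ ^ 2 * ‖ξ‖ ^ 2) - 1) / 3)

end

end Pool.H29.DEC
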