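import Pool.Agent.H29.DEC.OpA

/-!
# EQV: equivariance of `op` under linear maps and dilations

`op_equiv`: `ker (f ∘ C) x = ∫ exp(2πi⟪ξ,x⟫) f (C ξ) dξ = ∫ exp(2πi⟪C⁻¹η,x⟫) f η dη` and
`⟪C⁻¹ η, x⟫ = ⟪η, B⁻¹ x⟫`, so `ker (f ∘ C) x = ker f (B⁻¹ x)`; substitute `x = B y`.
`op_scale`: `ker (f (t • ·)) x = t^{-d} ker f (x / t)`; substitute `x = t y`
(`MeasureTheory.Measure.integral_comp_smul`).
-/

namespace Pool.H29.DEC

open MeasureTheory Filter Topology
open scoped FourierTransform SchwartzMap InnerProductSpace ContDiff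

noncomputable section

variable {V : Type} [NormedAddCommGroup V] [InnerProductSpace ℝ V] [FiniteDimensional ℝ V]
  [MeasurableSpace V] [BorelSpace V]
variable {H : Type} [NormedAddCommGroup H] [InnerProductSpace ℂ H] [CompleteSpace H]

theorem VRep.op_equiv (R : VRep V H) (B C : V ≃L[ℝ] V)
    (hB : MeasurePreserving (fun x => B x) (volume : Measure V) volume)
    (hC : MeasurePreserving (fun x => C x) (volume : Measure V) volume)
    (hadj : ∀ x y, ⟪C x, y⟫_ℝ = ⟪x, B y⟫_ℝ) (A : H →L[ℂ] H)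
    (hA : ∀ x φ, A (R.N x φ) = R.N (B x) (A φ)) {f : V → ℝ} (hf : Tst f) (φ : H) :
    A (R.op f φ) = R.op (fun ξ => f (C ξ)) (A φ) := by
  have hker : ∀ x, ker (fun ξ => f (C ξ)) (B x) = ker f x := by
    intro x
    unfold ker
    rw [Real.fourierInv_eq, Real.fourierInv_eq]
    have h1 := hC.integral_comp C.toHomeomorph.measurableEmbedding
      (fun η : V => (Real.fourierChar ⟪η, x⟫_ℝ) • ((f η : ℝ) : ℂ))
    rw [← h1]
    congr 1
    funext ξ
    rw [hadj]
  have h2 := hB.integral_comp B.toHomeomorph.measurableEmbedding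
    (fun x : V => ker (fun ξ => f (C ξ)) x • R.N x (A φ))
  unfold VRep.op
  rw [← h2, ← ContinuousLinearMap.integral_comp_comm A (R.integrable_smul (ker_integrable hf) φ)]
  congr 1
  funext x
  rw [map_smul, hA, hker]

theorem VRep.op_scale (R : VRep V H) {f : V → ℝ} (hf : Tst f) {t : ℝ} (ht : 0 < t) (φ : H) :
    R.op (fun ξ => f (t • ξ)) φ = ∫ y, ker f y • R.N (t • y) φ := by
  set c : ℝ := |(t ^ Module.finrank ℝ V)⁻¹| with hc
  have hc0 : c ≠ 0 := by
    rw [hc]
    positivity
  have hker : ∀ y, ker (fun ξ => f (t • ξ)) (t • y) = c • ker f y := by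
    intro y
    unfold ker
    rw [Real.fourierInv_eq, Real.fourierInv_eq]
    have h1 := Measure.integral_comp_smul (volume : Measure V)
      (fun η : V => (Real.fourierChar ⟪η, y⟫_ℝ) • ((f η : ℝ) : ℂ)) t
    rw [← hc] at h1
    rw [← h1]
    congr 1
    funext ξ
    rw [inner_smul_right, inner_smul_left]
    rfl
  have h2 := Measure.integral_comp_smul (volume : Measure V)
    (fun x : V => ker (fun ξ => f (t • ξ)) x • R.N x φ) t
  rw [← hc] at h2
  have h3 : (fun y : V => ker (fun ξ => f (t • ξ)) (t • y) • R.N (t • y) φ) =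
      fun y => c • (ker f y • R.N (t • y) φ) := by
    funext y
    rw [hker, smul_assoc]
  rw [h3, integral_smul] at h2
  unfold VRep.op
  exact ((smul_right_injective H hc0) h2).symm

end

end Pool.H29.DEC
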