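import Pool.Agent.H88.LF.GBB
import Pool.Agent.H29.DEC.Defs

/-!
# GRP: the semidirect product inside `SL(3,ℝ)` (explicit 3x3 matrix identities)

`nn i l m x = 1 + x0 E_im + x1 E_lm` (product of two commuting transvections).
`D_add` and `rot_add` are in `GBB`.
-/

set_option autoImplicit false

open MeasureTheory Set Filter
open scoped Topology InnerProductSpace

namespace Pool.Agent.H88.LF

open Pool.H29.DEC

noncomputable section

/-- the abelian group of matrices `1 + x0 E_im + x1 E_lm` -/
def nn (i l m : Fin 3) (him : i ≠ m) (hlm : l ≠ m) (x : V2) : G :=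
  U i m him (x 0) * U l m hlm (x 1)

theorem grp_coe (i l m : Fin 3) (him : i ≠ m) (hlm : l ≠ m) (x : V2) (a b : Fin 3) :
    (nn i l m him hlm x).1 a b = (if a = b then 1 else 0) + (if a = i ∧ b = m then x 0 else 0) +
      (if a = l ∧ b = m then x 1 else 0) := by
  have h1 : (nn i l m him hlm x).1 = 1 + Matrix.single i m (x 0) + Matrix.single l m (x 1) := by
    show Matrix.transvection i m (x 0) * Matrix.transvection l m (x 1) = _
    unfold Matrix.transvection
    rw [add_mul, mul_add, mul_add, Matrix.single_mul_single_of_ne (h := hlm.symm)]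
    simp only [mul_one, one_mul, add_zero]
    abel
  rw [h1]
  simp only [Matrix.add_apply, Matrix.one_apply, Matrix.single_apply, eq_comm]

theorem nn_zero (i l m : Fin 3) (him : i ≠ m) (hlm : l ≠ m) : nn i l m him hlm 0 = 1 := by
  apply Subtype.ext
  ext a b
  rw [grp_coe]
  simp [Matrix.one_apply]

theorem nn_add (i l m : Fin 3) (hil : i ≠ l) (him : i ≠ m) (hlm : l ≠ m) (x y : V2) :
    nn i l m him hlm (x + y) = nn i l m him hlm x * nn i l m him hlm y := by
  apply Subtype.ext
  ext a b
  rw [Matrix.SpecialLinearGroup.coe_mul, Matrix.mul_apply, Fin.sum_univ_three]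
  simp only [grp_coe]
  fin_cases i <;> fin_cases l <;> first | exact absurd rfl hil | skip
  all_goals fin_cases m <;> first | exact absurd rfl him | exact absurd rfl hlm | skip
  all_goals fin_cases a <;> fin_cases b <;> simp
  all_goals ring

theorem nn_cont (i l m : Fin 3) (him : i ≠ m) (hlm : l ≠ m) :
    Continuous (nn i l m him hlm) := by
  rw [closedEmb_val.isEmbedding.continuous_iff]
  apply continuous_matrix
  intro a b
  simp only [Function.comp_apply, grp_coe]
  refine Continuous.add (Continuous.add continuous_const ?_) ?_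
  · by_cases h : a = i ∧ b = m
    · simp only [h, and_self, if_true]; fun_prop
    · simp only [h, if_false]; exact continuous_const
  · by_cases h : a = l ∧ b = m
    · simp only [h, and_self, if_true]; fun_prop
    · simp only [h, if_false]; exact continuous_const

theorem nn_e0 (i l m : Fin 3) (him : i ≠ m) (hlm : l ≠ m) (s : ℝ) :
    nn i l m him hlm !₂[s, 0] = U i m him s := by
  have h1 : U l m hlm 0 = 1 := by
    apply Subtype.ext
    show Matrix.transvection l m 0 = 1
    simp
  unfold nn
  simp [h1]

theorem rot_nn (i l m : Fin 3) (hil : i ≠ l) (him : i ≠ m) (hlm : l ≠ m) (θ : ℝ) (x : V2) :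
    rot i l hil θ * nn i l m him hlm x = nn i l m him hlm (rot2 θ x) * rot i l hil θ := by
  apply Subtype.ext
  ext a b
  rw [Matrix.SpecialLinearGroup.coe_mul, Matrix.SpecialLinearGroup.coe_mul, Matrix.mul_apply,
    Matrix.mul_apply, Fin.sum_univ_three, Fin.sum_univ_three]
  simp only [grp_coe, rot, rotMat, rot2]
  fin_cases i <;> fin_cases l <;> first | exact absurd rfl hil | skip
  all_goals fin_cases m <;> first | exact absurd rfl him | exact absurd rfl hlm | skip
  all_goals fin_cases a <;> fin_cases b <;> simp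
  all_goals ring

/-- the vector `v'` with `cmp v' = s (e_i - e_l)` -/
def vs (i l : Fin 3) (s : ℝ) : ℝ × ℝ :=
  ((if i = 0 then s else if l = 0 then -s else 0), (if i = 1 then s else if l = 1 then -s else 0))

theorem grp_cmp_vs (i l : Fin 3) (hil : i ≠ l) (s : ℝ) (a : Fin 3) :
    cmp (vs i l s) a = if a = i then s else if a = l then -s else 0 := by
  fin_cases i <;> fin_cases l <;> first | exact absurd rfl hil | skip
  all_goals fin_cases a <;> simp [cmp, vs]

theorem grp_D (v : ℝ × ℝ) (a b : Fin 3) :
    (D v).1 a b = if a = b then Real.exp (cmp v a) else 0 := by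
  show Matrix.diagonal _ a b = _
  rw [Matrix.diagonal_apply]

theorem D_vs_nn (i l m : Fin 3) (hil : i ≠ l) (him : i ≠ m) (hlm : l ≠ m) (s : ℝ) (x : V2) :
    D (vs i l s) * nn i l m him hlm x = nn i l m him hlm (dil2 s x) * D (vs i l s) := by
  apply Subtype.ext
  ext a b
  rw [Matrix.SpecialLinearGroup.coe_mul, Matrix.SpecialLinearGroup.coe_mul, Matrix.mul_apply,
    Matrix.mul_apply, Fin.sum_univ_three, Fin.sum_univ_three]
  simp only [grp_coe, grp_D, grp_cmp_vs i l hil, dil2]
  fin_cases i <;> fin_cases l <;> first | exact absurd rfl hil | skip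
  all_goals fin_cases m <;> first | exact absurd rfl him | exact absurd rfl hlm | skip
  all_goals fin_cases a <;> fin_cases b <;> simp

/-- the part of `D v` which is scalar on the plane `(i,l)` commutes with the rotations -/
theorem D_comm_rot (i l : Fin 3) (hil : i ≠ l) (v : ℝ × ℝ) (θ : ℝ) :
    D (v - vs i l ((cmp v i - cmp v l) / 2)) * rot i l hil θ =
      rot i l hil θ * D (v - vs i l ((cmp v i - cmp v l) / 2)) := by
  have hsub : ∀ a, cmp (v - vs i l ((cmp v i - cmp v l) / 2)) a =
      cmp v a - cmp (vs i l ((cmp v i - cmp v l) / 2)) a := by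
    intro a
    fin_cases a <;> simp [cmp]
    ring
  have hil' : cmp (v - vs i l ((cmp v i - cmp v l) / 2)) i =
      cmp (v - vs i l ((cmp v i - cmp v l) / 2)) l := by
    rw [hsub, hsub, grp_cmp_vs i l hil, grp_cmp_vs i l hil]
    simp [hil.symm]
    ring
  generalize v - vs i l ((cmp v i - cmp v l) / 2) = w at hil'
  apply Subtype.ext
  ext a b
  rw [Matrix.SpecialLinearGroup.coe_mul, Matrix.SpecialLinearGroup.coe_mul]
  have h1 : ((D w).1 * (rot i l hil θ).1) a b = Real.exp (cmp w a) * (rot i l hil θ).1 a b := by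
    rw [D_val, Matrix.diagonal_mul]
  have h2 : ((rot i l hil θ).1 * (D w).1) a b = (rot i l hil θ).1 a b * Real.exp (cmp w b) := by
    rw [D_val, Matrix.mul_diagonal]
  rw [h1, h2, mul_comm]
  by_cases hab : a = b
  · rw [hab]
  · by_cases hz : (rot i l hil θ).1 a b = 0
    · rw [hz]; simp
    · have h3 : (a = i ∧ b = l) ∨ (a = l ∧ b = i) := by
        by_contra hcon
        push Not at hcon
        apply hz
        show rotMat i l θ a b = 0
        unfold rotMat
        rw [if_neg, if_neg, if_neg, if_neg hab]
        · exact fun h => hcon.2 h.1 h.2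
        · exact fun h => hcon.1 h.1 h.2
        · rintro (⟨h, h'⟩ | ⟨h, h'⟩)
          · exact hab (h.trans h'.symm)
          · exact hab (h.trans h'.symm)
      rcases h3 with ⟨rfl, rfl⟩ | ⟨rfl, rfl⟩
      · rw [hil']
      · rw [hil']

theorem rot_periodic (i l : Fin 3) (hil : i ≠ l) (θ : ℝ) :
    rot i l hil (θ + 2 * Real.pi) = rot i l hil θ := by
  apply Subtype.ext
  ext a b
  simp only [rot, rotMat, Real.cos_add_two_pi, Real.sin_add_two_pi]

theorem rot_cont (i l : Fin 3) (hil : i ≠ l) : Continuous (rot i l hil) := by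
  rw [closedEmb_val.isEmbedding.continuous_iff]
  apply continuous_matrix
  intro a b
  simp only [Function.comp_apply, rot, rotMat]
  split_ifs <;> fun_prop

end

end Pool.Agent.H88.LF
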