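import Pool.Agent.H29.DEC.Defs

/-!
# KER: the kernel `ker f = 𝓕⁻ f` of a test function

All facts follow from `HasCompactSupport.toSchwartzMap` (applied to `fun ξ => (f ξ : ℂ)`),
`SchwartzMap.fourierInv_coe`, Fourier inversion for Schwartz functions, and for `ker_mul` from
`SchwartzMap.convolution_apply` / `SchwartzMap.fourier_convolution`
(`Mathlib/Analysis/Fourier/Convolution.lean`): with `F = 𝓕⁻ f`, `G = 𝓕⁻ g` Schwartz,
`convolution (ContinuousLinearMap.mul ℂ ℂ) F G = 𝓕⁻ (pairing _ (𝓕 F) (𝓕 G)) = 𝓕⁻ (f g)`.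
-/

namespace Pool.H29.DEC

open MeasureTheory Filter Topology
open scoped FourierTransform SchwartzMap InnerProductSpace ContDiff ComplexConjugate

noncomputable section

variable {V : Type} [NormedAddCommGroup V] [InnerProductSpace ℝ V] [FiniteDimensional ℝ V]
  [MeasurableSpace V] [BorelSpace V]

/-- The test function as a Schwartz function. -/
def ker_toS {f : V → ℝ} (hf : Tst f) : 𝓢(V, ℂ) :=
  HasCompactSupport.toSchwartzMap (f := fun ξ => (f ξ : ℂ))
    (hf.2.comp_left (g := fun r : ℝ => (r : ℂ)) (by simp)) (Complex.ofRealCLM.contDiff.comp hf.1)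

theorem ker_toS_apply {f : V → ℝ} (hf : Tst f) (ξ : V) : ker_toS hf ξ = (f ξ : ℂ) := rfl

theorem ker_eq_toS {f : V → ℝ} (hf : Tst f) : ((𝓕⁻ (ker_toS hf) : 𝓢(V, ℂ)) : V → ℂ) = ker f := by
  rw [SchwartzMap.fourierInv_coe]
  rfl

/-- The kernel is a Schwartz function. -/
theorem ker_schwartz {f : V → ℝ} (hf : Tst f) :
    ∃ g : 𝓢(V, ℂ), (g : V → ℂ) = ker f ∧ (∀ ξ, (𝓕 g : 𝓢(V, ℂ)) ξ = (f ξ : ℂ)) := by
  refine ⟨𝓕⁻ (ker_toS hf), ker_eq_toS hf, fun ξ => ?_⟩
  rw [FourierTransform.fourier_fourierInv_eq]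
  rfl

theorem ker_continuous {f : V → ℝ} (hf : Tst f) : Continuous (ker f) := by
  rw [← ker_eq_toS hf]
  exact SchwartzMap.continuous _

theorem ker_integrable {f : V → ℝ} (hf : Tst f) : Integrable (ker f) := by
  rw [← ker_eq_toS hf]
  exact SchwartzMap.integrable _

theorem integral_ker {f : V → ℝ} (hf : Tst f) : ∫ x, ker f x = (f 0 : ℂ) := by
  have h1 : (𝓕 (𝓕⁻ (ker_toS hf)) : 𝓢(V, ℂ)) 0 = (f 0 : ℂ) := by
    rw [FourierTransform.fourier_fourierInv_eq]
    rfl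
  rw [← h1, SchwartzMap.fourier_coe, ker_eq_toS hf, Real.fourier_eq]
  refine integral_congr_ae (Eventually.of_forall fun x => ?_)
  simp

/-- rapid decay, see `SchwartzMap.one_add_le_sup_seminorm_apply` -/
theorem ker_decay {f : V → ℝ} (hf : Tst f) (k : ℕ) :
    ∃ C : ℝ, 0 ≤ C ∧ ∀ x, (1 + ‖x‖) ^ k * ‖ker f x‖ ≤ C := by
  refine ⟨2 ^ k * ((Finset.Iic (k, 0)).sup (fun m => SchwartzMap.seminorm ℝ m.1 m.2)) (𝓕⁻ (ker_toS hf)),
    by positivity, fun x => ?_⟩
  have h := SchwartzMap.one_add_le_sup_seminorm_apply (𝕜 := ℝ) (m := (k, 0)) (k := k) (n := 0) le_rfl le_rfl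
    (𝓕⁻ (ker_toS hf)) x
  rw [norm_iteratedFDeriv_zero, ker_eq_toS hf] at h
  exact h

theorem ker_neg (f : V → ℝ) (x : V) : ker f (-x) = conj (ker f x) := by
  unfold ker
  rw [Real.fourierInv_eq, Real.fourierInv_eq, ← integral_conj]
  refine integral_congr_ae (Eventually.of_forall fun y => ?_)
  simp only [inner_neg_right, Circle.smul_def, smul_eq_mul, map_mul, Complex.conj_ofReal]
  congr 1
  rw [← Circle.coe_inv_eq_conj, ← AddChar.map_neg_eq_inv]

theorem ker_add {f g : V → ℝ} (hf : Tst f) (hg : Tst g) (x : V) :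
    ker (fun ξ => f ξ + g ξ) x = ker f x + ker g x := by
  have h1 : ((ker_toS hf + ker_toS hg : 𝓢(V, ℂ)) : V → ℂ) = fun ξ => ((f ξ + g ξ : ℝ) : ℂ) := by
    funext ξ
    rw [add_apply, ker_toS_apply, ker_toS_apply]
    push_cast
    rfl
  have h2 : ker (fun ξ => f ξ + g ξ) = ((𝓕⁻ (ker_toS hf + ker_toS hg) : 𝓢(V, ℂ)) : V → ℂ) := by
    rw [SchwartzMap.fourierInv_coe, h1]
    rfl
  rw [h2, FourierTransform.fourierInv_add, add_apply, ker_eq_toS hf, ker_eq_toS hg]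

theorem ker_smul (c : ℝ) (f : V → ℝ) (x : V) :
    ker (fun ξ => c * f ξ) x = (c : ℂ) * ker f x := by
  unfold ker
  rw [Real.fourierInv_eq, Real.fourierInv_eq, ← integral_const_mul]
  refine integral_congr_ae (Eventually.of_forall fun y => ?_)
  simp only [Circle.smul_def, smul_eq_mul]
  push_cast
  ring

theorem ker_mul {f g : V → ℝ} (hf : Tst f) (hg : Tst g) (x : V) :
    ker (fun ξ => f ξ * g ξ) x = ∫ y, ker f y * ker g (x - y) := by
  set F : 𝓢(V, ℂ) := 𝓕⁻ (ker_toS hf) with hF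
  set K : 𝓢(V, ℂ) := 𝓕⁻ (ker_toS hg) with hK
  have h1 := SchwartzMap.convolution_apply (ContinuousLinearMap.mul ℂ ℂ) F K x
  have h2 : SchwartzMap.convolution (ContinuousLinearMap.mul ℂ ℂ) F K =
      𝓕⁻ (SchwartzMap.pairing (ContinuousLinearMap.mul ℂ ℂ) (ker_toS hf) (ker_toS hg)) := by
    have e1 : (𝓕⁻ (𝓕 (SchwartzMap.convolution (ContinuousLinearMap.mul ℂ ℂ) F K) : 𝓢(V, ℂ)) : 𝓢(V, ℂ)) =
        SchwartzMap.convolution (ContinuousLinearMap.mul ℂ ℂ) F K :=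
      FourierTransform.fourierInv_fourier_eq _
    rw [← e1, SchwartzMap.fourier_convolution,
      hF, hK, FourierTransform.fourier_fourierInv_eq, FourierTransform.fourier_fourierInv_eq]
  have h3 : ker (fun ξ => f ξ * g ξ) =
      ((SchwartzMap.convolution (ContinuousLinearMap.mul ℂ ℂ) F K : 𝓢(V, ℂ)) : V → ℂ) := by
    rw [h2, SchwartzMap.fourierInv_coe]
    unfold ker
    congr 1
    funext ξ
    rw [SchwartzMap.pairing_apply_apply, ker_toS_apply, ker_toS_apply]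
    push_cast
    rfl
  rw [h3, h1, hF, hK, ker_eq_toS hf, ker_eq_toS hg]
  rfl

end

end Pool.H29.DEC
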