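import Pool.Agent.H29.DEC.OpM

/-!
# POS: positivity of `op`

`op_le`: let `c' > c`, `σ = √c' - √(c' - f)` (`Tst.sqrt_trick`); then `f = 2 √c' σ - σ²`, so
`c' ‖φ‖² - re ⟪φ, op f φ⟫ = ‖√c' φ - op σ φ‖² ≥ 0` by `op_mul`, `op_symm`; let `c' → c`.
-/

namespace Pool.H29.DEC

open MeasureTheory Filter Topology
open scoped FourierTransform SchwartzMap InnerProductSpace ContDiff

noncomputable section

variable {V : Type} [NormedAddCommGroup V] [InnerProductSpace ℝ V] [FiniteDimensional ℝ V]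
  [MeasurableSpace V] [BorelSpace V]
variable {H : Type} [NormedAddCommGroup H] [InnerProductSpace ℂ H] [CompleteSpace H]

theorem VRep.op_le (R : VRep V H) {f : V → ℝ} (hf : Tst f) {c : ℝ} (hc : 0 ≤ c)
    (h : ∀ ξ, f ξ ≤ c) (φ : H) : (⟪φ, R.op f φ⟫_ℂ).re ≤ c * ‖φ‖ ^ 2 := by
  have key : ∀ c' : ℝ, c < c' → (⟪φ, R.op f φ⟫_ℂ).re ≤ c' * ‖φ‖ ^ 2 := by
    intro c' hc'
    have hc0 : 0 < c' := lt_of_le_of_lt hc hc'
    have hlt : ∀ ξ, f ξ < c' := fun ξ => (h ξ).trans_lt hc'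
    set σ : V → ℝ := fun ξ => √c' - √(c' - f ξ) with hσ
    have hσt : Tst σ := hf.sqrt_trick hc0 hlt
    have hfe : f = fun ξ => (2 * √c') * σ ξ - (fun η => σ η * σ η) ξ := by
      funext ξ
      have h1 : √c' * √c' = c' := Real.mul_self_sqrt hc0.le
      have h2 : √(c' - f ξ) * √(c' - f ξ) = c' - f ξ := Real.mul_self_sqrt (by linarith [hlt ξ])
      simp only [hσ]
      nlinarith
    have e1 : R.op f φ = ((2 * √c' : ℝ) : ℂ) • R.op σ φ - R.op σ (R.op σ φ) := by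
      conv_lhs => rw [hfe]
      rw [R.op_sub (hσt.const_mul _) (hσt.mul hσt), R.op_const_mul _ hσt, R.op_mul hσt hσt]
    have e2 : ‖((√c' : ℝ) : ℂ) • φ - R.op σ φ‖ ^ 2 = c' * ‖φ‖ ^ 2 - (⟪φ, R.op f φ⟫_ℂ).re := by
      rw [@norm_sub_sq ℂ, norm_smul, Complex.norm_real, Real.norm_eq_abs, mul_pow, sq_abs,
        Real.sq_sqrt hc0.le, e1, inner_sub_right, inner_smul_right, inner_smul_left,
        R.op_symm hσt (R.op σ φ) φ, ← inner_self_eq_norm_sq (𝕜 := ℂ) (R.op σ φ)]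
      simp only [Complex.conj_ofReal, RCLike.re_to_complex, Complex.sub_re, Complex.re_ofReal_mul]
      ring
    nlinarith [sq_nonneg ‖((√c' : ℝ) : ℂ) • φ - R.op σ φ‖]
  have hlim : Tendsto (fun c' : ℝ => c' * ‖φ‖ ^ 2) (𝓝[>] c) (𝓝 (c * ‖φ‖ ^ 2)) :=
    ((continuous_id.mul continuous_const).tendsto c).mono_left nhdsWithin_le_nhds
  exact ge_of_tendsto hlim (eventually_nhdsWithin_of_forall fun c' hc' => key c' hc')

/-- `‖op f φ‖² = ⟪op f φ, op f φ⟫ = ⟪φ, op f (op f φ)⟫ = ⟪φ, op (f²) φ⟫` -/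
theorem VRep.op_norm_sq (R : VRep V H) {f : V → ℝ} (hf : Tst f) (φ : H) :
    ‖R.op f φ‖ ^ 2 = (⟪φ, R.op (fun ξ => f ξ ^ 2) φ⟫_ℂ).re := by
  have h1 : (fun ξ => f ξ ^ 2) = fun ξ => f ξ * f ξ := by
    funext ξ; ring
  rw [h1, R.op_mul hf hf, R.op_symm hf (R.op f φ) φ, ← inner_self_eq_norm_sq (𝕜 := ℂ) (R.op f φ)]
  rfl

theorem VRep.op_norm_le (R : VRep V H) {f : V → ℝ} (hf : Tst f) {c : ℝ} (hc : 0 ≤ c)
    (h : ∀ ξ, |f ξ| ≤ c) (φ : H) : ‖R.op f φ‖ ≤ c * ‖φ‖ := by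
  have h1 : ‖R.op f φ‖ ^ 2 ≤ (c * ‖φ‖) ^ 2 := by
    rw [R.op_norm_sq hf, mul_pow]
    refine R.op_le hf.sq (sq_nonneg c) (fun ξ => ?_) φ
    rw [← sq_abs (f ξ)]
    exact pow_le_pow_left₀ (abs_nonneg _) (h ξ) 2
  exact le_of_sq_le_sq h1 (by positivity)

end

end Pool.H29.DEC
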