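import Pool.Agent.H29.DEC.Eqv
import Pool.Agent.H29.DEC.Pos

/-!
# LIMI: `op f(t •) φ → 0` as `t → ∞` on a subspace without invariant vectors

(a) `lim_top_aux`: for `φ = ψ - N z ψ`: by `op_scale`
`op f(t •) φ = ∫ (ker f y - ker f (y - z/t)) • N (t y) ψ dy`, of norm
`≤ ‖ψ‖ ∫ ‖ker f y - ker f (y - z/t)‖ dy → 0` by dominated convergence (`ker_decay` with
`k > dim V`: for `‖w‖ ≤ 1`, `‖ker f (y - w)‖ ≤ C (1+‖y-w‖)^{-k} ≤ 2^k C (1+‖y‖)^{-k}`,
`integrable_one_add_norm`).
(b) The span of the vectors `ψ - N z ψ`, `ψ ∈ K`, is dense in `K`: a vector `η ∈ K` orthogonal to all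
of them is fixed by all `N z` (`⟪η, ψ - N z ψ⟫ = ⟪η - N (-z) η, ψ⟫`, take `ψ = η - N (-z) η`), so `0`.
(c) `‖op f(t •) φ‖ ≤ c ‖φ‖` with `c` independent of `t` (`op_norm_le`; `f` is bounded).
-/

namespace Pool.H29.DEC

open MeasureTheory Filter Topology
open scoped FourierTransform SchwartzMap InnerProductSpace ContDiff

noncomputable section

variable {V : Type} [NormedAddCommGroup V] [InnerProductSpace ℝ V] [FiniteDimensional ℝ V]
  [MeasurableSpace V] [BorelSpace V]
variable {H : Type} [NormedAddCommGroup H] [InnerProductSpace ℂ H] [CompleteSpace H]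

/-- the representation `x ↦ N (t x)` -/
def VRep.limi_scale (R : VRep V H) (t : ℝ) : VRep V H where
  N := fun x => R.N (t • x)
  zero := fun φ => by rw [smul_zero, R.zero]
  add := fun x y φ => by rw [smul_add, R.add]
  isom := fun x φ => R.isom _ φ
  cont := fun φ => (R.cont φ).comp (continuous_const_smul t)

theorem limi_dom {f : V → ℝ} (hf : Tst f) (z : V) :
    Tendsto (fun t : ℝ => ∫ y, ‖ker f y - ker f (y - t⁻¹ • z)‖) atTop (𝓝 0) := by
  set n : ℕ := Module.finrank ℝ V + 1 with hn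
  obtain ⟨C, hC, hdec⟩ := ker_decay hf n
  have hcont := ker_continuous hf
  have hb : ∀ y, ‖ker f y‖ ≤ C * (1 + ‖y‖) ^ (-(n : ℝ)) := by
    intro y
    have h1 : 0 < 1 + ‖y‖ := by positivity
    rw [Real.rpow_neg h1.le, Real.rpow_natCast, ← div_eq_mul_inv, le_div_iff₀ (by positivity)]
    linarith [hdec y, mul_comm ((1 + ‖y‖) ^ n) ‖ker f y‖]
  have hb2 : ∀ w y : V, ‖w‖ ≤ 1 → ‖ker f (y - w)‖ ≤ 2 ^ n * C * (1 + ‖y‖) ^ (-(n : ℝ)) := by
    intro w y hw
    have h1 : 0 < 1 + ‖y‖ := by positivity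
    rw [Real.rpow_neg h1.le, Real.rpow_natCast, ← div_eq_mul_inv, le_div_iff₀ (by positivity)]
    have h2 : 1 + ‖y‖ ≤ 2 * (1 + ‖y - w‖) := by
      have h3 : ‖y‖ ≤ ‖y - w‖ + ‖w‖ := by
        calc ‖y‖ = ‖(y - w) + w‖ := by rw [sub_add_cancel]
          _ ≤ ‖y - w‖ + ‖w‖ := norm_add_le _ _
      have h4 : 0 ≤ ‖y - w‖ := norm_nonneg _
      linarith
    calc ‖ker f (y - w)‖ * (1 + ‖y‖) ^ n ≤ ‖ker f (y - w)‖ * (2 * (1 + ‖y - w‖)) ^ n := by
          apply mul_le_mul_of_nonneg_left _ (norm_nonneg _)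
          exact pow_le_pow_left₀ h1.le h2 n
      _ = 2 ^ n * ((1 + ‖y - w‖) ^ n * ‖ker f (y - w)‖) := by rw [mul_pow]; ring
      _ ≤ 2 ^ n * C := by
          apply mul_le_mul_of_nonneg_left (hdec _)
          positivity
  have h0 : (0 : ℝ) = ∫ _y : V, (0 : ℝ) := by simp
  rw [h0]
  refine tendsto_integral_filter_of_dominated_convergence
    (fun y : V => (C + 2 ^ n * C) * (1 + ‖y‖) ^ (-(n : ℝ))) ?_ ?_ ?_ ?_
  · exact Eventually.of_forall fun t =>
      ((hcont.sub (hcont.comp (continuous_id.sub continuous_const))).norm).aestronglyMeasurable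
  · filter_upwards [eventually_ge_atTop (max 1 ‖z‖)] with t ht
    have ht1 : 1 ≤ t := (le_max_left _ _).trans ht
    have ht0 : 0 < t := by linarith
    have hz : ‖z‖ ≤ t := (le_max_right _ _).trans ht
    have hw : ‖t⁻¹ • z‖ ≤ 1 := by
      rw [norm_smul, norm_inv, Real.norm_eq_abs, abs_of_pos ht0, inv_mul_le_iff₀ ht0, mul_one]
      exact hz
    refine Eventually.of_forall fun y => ?_
    rw [norm_norm]
    calc ‖ker f y - ker f (y - t⁻¹ • z)‖ ≤ ‖ker f y‖ + ‖ker f (y - t⁻¹ • z)‖ := norm_sub_le _ _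
      _ ≤ C * (1 + ‖y‖) ^ (-(n : ℝ)) + 2 ^ n * C * (1 + ‖y‖) ^ (-(n : ℝ)) :=
          add_le_add (hb y) (hb2 _ y hw)
      _ = (C + 2 ^ n * C) * (1 + ‖y‖) ^ (-(n : ℝ)) := by ring
  · apply Integrable.const_mul
    apply integrable_one_add_norm
    rw [hn]
    push_cast
    linarith
  · refine Eventually.of_forall fun y => ?_
    have h1 : Tendsto (fun t : ℝ => y - t⁻¹ • z) atTop (𝓝 (y - (0 : ℝ) • z)) :=
      tendsto_const_nhds.sub (tendsto_inv_atTop_zero.smul_const z)
    rw [zero_smul, sub_zero] at h1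
    have h2 : Tendsto (fun t : ℝ => ker f (y - t⁻¹ • z)) atTop (𝓝 (ker f y)) :=
      (hcont.tendsto y).comp h1
    have h3 : Tendsto (fun t : ℝ => ‖ker f y - ker f (y - t⁻¹ • z)‖) atTop
        (𝓝 ‖ker f y - ker f y‖) := (tendsto_const_nhds.sub h2).norm
    rwa [sub_self, norm_zero] at h3

theorem VRep.lim_top_aux (R : VRep V H) {f : V → ℝ} (hf : Tst f) (ψ : H) (z : V) :
    Tendsto (fun t : ℝ => R.op (fun ξ => f (t • ξ)) (ψ - R.N z ψ)) atTop (𝓝 0) := by
  have hki := ker_integrable hf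
  have hkey : ∀ t : ℝ, 0 < t → ‖R.op (fun ξ => f (t • ξ)) (ψ - R.N z ψ)‖ ≤
      (∫ y, ‖ker f y - ker f (y - t⁻¹ • z)‖) * ‖ψ‖ := by
    intro t ht
    set Rt : VRep V H := R.limi_scale t with hRt
    have hN : ∀ y φ, Rt.N y φ = R.N (t • y) φ := fun y φ => rfl
    have hks : Integrable (fun y => ker f (y - t⁻¹ • z)) := hki.comp_sub_right (t⁻¹ • z)
    have h1 : R.op (fun ξ => f (t • ξ)) (ψ - R.N z ψ) =
        ∫ y, (ker f y - ker f (y - t⁻¹ • z)) • Rt.N y ψ := by
      rw [R.op_scale hf ht]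
      have h2 : ∀ y, ker f y • R.N (t • y) (ψ - R.N z ψ) =
          ker f y • Rt.N y ψ - ker f y • Rt.N (y + t⁻¹ • z) ψ := by
        intro y
        rw [map_sub, smul_sub, ← R.add, hN, hN, smul_add, smul_smul, mul_inv_cancel₀ ht.ne',
          one_smul]
      have h3 : Integrable (fun y => ker f (y - t⁻¹ • z) • Rt.N y ψ) :=
        Rt.integrable_smul hks ψ
      have h4 : Integrable (fun y => ker f y • Rt.N (y + t⁻¹ • z) ψ) := by
        have h5 := h3.comp_add_right (t⁻¹ • z)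
        simpa only [add_sub_cancel_right] using h5
      have h6 : ∫ y, ker f y • Rt.N (y + t⁻¹ • z) ψ = ∫ y, ker f (y - t⁻¹ • z) • Rt.N y ψ := by
        rw [← integral_add_right_eq_self (fun y => ker f (y - t⁻¹ • z) • Rt.N y ψ) (t⁻¹ • z)]
        simp only [add_sub_cancel_right]
      simp only [h2]
      rw [integral_sub (Rt.integrable_smul hki ψ) h4, h6,
        ← integral_sub (Rt.integrable_smul hki ψ) h3]
      simp only [sub_smul]
    rw [h1]
    exact Rt.norm_integral_le (hki.sub hks) ψ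
  have hlim : Tendsto (fun t : ℝ => (∫ y, ‖ker f y - ker f (y - t⁻¹ • z)‖) * ‖ψ‖) atTop
      (𝓝 0) := by
    have h1 := (limi_dom hf z).mul_const ‖ψ‖
    rwa [zero_mul] at h1
  refine squeeze_zero_norm' ?_ hlim
  filter_upwards [eventually_gt_atTop (0 : ℝ)] with t ht
  exact hkey t ht

theorem VRep.lim_top (R : VRep V H) {f : V → ℝ} (hf : Tst f) (K : Submodule ℂ H)
    (hKc : IsClosed (K : Set H)) (hKi : ∀ x, ∀ φ ∈ K, R.N x φ ∈ K)
    (hK0 : ∀ φ ∈ K, (∀ x, R.N x φ = φ) → φ = 0) {φ : H} (hφ : φ ∈ K) :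
    Tendsto (fun t : ℝ => R.op (fun ξ => f (t • ξ)) φ) atTop (𝓝 0) := by
  obtain ⟨c, hc⟩ := hf.2.exists_bound_of_continuous hf.1.continuous
  have hc0 : 0 ≤ c := (norm_nonneg _).trans (hc 0)
  have hT : ∀ t : ℝ, 0 < t → Tst (fun ξ => f (t • ξ)) := fun t ht => hf.comp_smul ht.ne'
  have hbound : ∀ t : ℝ, 0 < t → ∀ η : H, ‖R.op (fun ξ => f (t • ξ)) η‖ ≤ c * ‖η‖ :=
    fun t ht η => R.op_norm_le (hT t ht) hc0 (fun ξ => hc _) η
  -- the closed subspace of vectors with limit zero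
  let A : Submodule ℂ H :=
    { carrier := {η | Tendsto (fun t : ℝ => R.op (fun ξ => f (t • ξ)) η) atTop (𝓝 0)}
      add_mem' := by
        intro a b ha hb
        have h1 := Tendsto.add ha hb
        rw [add_zero] at h1
        refine h1.congr' ?_
        filter_upwards [eventually_gt_atTop (0 : ℝ)] with t ht
        exact (R.op_add_vec (hT t ht) a b).symm
      zero_mem' := by
        have h1 : Tendsto (fun _ : ℝ => (0 : H)) atTop (𝓝 0) := tendsto_const_nhds
        refine h1.congr' ?_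
        filter_upwards [eventually_gt_atTop (0 : ℝ)] with t ht
        have h2 := hbound t ht 0
        rw [norm_zero, mul_zero] at h2
        exact (norm_le_zero_iff.1 h2).symm
      smul_mem' := by
        intro d a ha
        have h1 := Tendsto.const_smul ha d
        rw [smul_zero] at h1
        refine h1.congr' ?_
        filter_upwards [eventually_gt_atTop (0 : ℝ)] with t ht
        exact (R.op_smul_vec (hT t ht) d a).symm }
  have hA : ∀ η, η ∈ A ↔ Tendsto (fun t : ℝ => R.op (fun ξ => f (t • ξ)) η) atTop (𝓝 0) :=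
    fun η => Iff.rfl
  have hAc : IsClosed (A : Set H) := by
    apply isClosed_of_closure_subset
    intro η hη
    show η ∈ A
    rw [hA, Metric.tendsto_nhds]
    intro ε hε
    have hδ : 0 < ε / (2 * (c + 1)) := by positivity
    obtain ⟨η', hη', hd⟩ := Metric.mem_closure_iff.1 hη _ hδ
    have h1 := Metric.tendsto_nhds.1 ((hA η').1 hη') (ε / 2) (by positivity)
    filter_upwards [h1, eventually_gt_atTop (0 : ℝ)] with t ht ht0
    rw [dist_zero_right] at ht ⊢
    have h2 : R.op (fun ξ => f (t • ξ)) η =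
        R.op (fun ξ => f (t • ξ)) (η - η') + R.op (fun ξ => f (t • ξ)) η' := by
      rw [← R.op_add_vec (hT t ht0), sub_add_cancel]
    have h3 : c * ‖η - η'‖ ≤ ε / 2 := by
      rw [dist_eq_norm] at hd
      have h4 : c * ‖η - η'‖ ≤ c * (ε / (2 * (c + 1))) := mul_le_mul_of_nonneg_left hd.le hc0
      have h5 : c * (ε / (2 * (c + 1))) ≤ ε / 2 := by
        rw [mul_div_assoc', div_le_div_iff₀ (by positivity) (by norm_num)]
        nlinarith
      exact h4.trans h5
    calc ‖R.op (fun ξ => f (t • ξ)) η‖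
        ≤ ‖R.op (fun ξ => f (t • ξ)) (η - η')‖ + ‖R.op (fun ξ => f (t • ξ)) η'‖ := by
          rw [h2]
          exact norm_add_le _ _
      _ < c * ‖η - η'‖ + ε / 2 := add_lt_add_of_le_of_lt (hbound t ht0 _) ht
      _ ≤ ε := by linarith
  -- the span of the differences
  set D : Submodule ℂ H :=
    (Submodule.span ℂ {x | ∃ ψ ∈ K, ∃ z, x = ψ - R.N z ψ}).topologicalClosure with hD
  have hDA : D ≤ A := by
    apply Submodule.topologicalClosure_minimal _ _ hAc
    rw [Submodule.span_le]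
    rintro x ⟨ψ, _, z, rfl⟩
    exact R.lim_top_aux hf ψ z
  have hDK : D ≤ K := by
    apply Submodule.topologicalClosure_minimal _ _ hKc
    rw [Submodule.span_le]
    rintro x ⟨ψ, hψ, z, rfl⟩
    exact K.sub_mem hψ (hKi z ψ hψ)
  have hDc : IsClosed (D : Set H) := Submodule.isClosed_topologicalClosure _
  haveI : CompleteSpace D := hDc.completeSpace_coe
  set P : H := (D.starProjection φ : H) with hP
  have hPD : P ∈ D := D.starProjection_apply_mem φ
  have horth : ∀ w ∈ D, ⟪w, φ - P⟫_ℂ = 0 := by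
    intro w hw
    exact (Submodule.mem_orthogonal D _).1 (D.sub_starProjection_mem_orthogonal φ) w hw
  set η : H := φ - P with hη
  have hηK : η ∈ K := K.sub_mem hφ (hDK hPD)
  have hinv : ∀ x, R.N x η = η := by
    intro x
    have hψ : η - R.N x η ∈ K := K.sub_mem hηK (hKi x η hηK)
    have h1 : (η - R.N x η) - R.N (-x) (η - R.N x η) ∈ D := by
      apply Submodule.le_topologicalClosure
      apply Submodule.subset_span
      exact ⟨_, hψ, -x, rfl⟩
    have h2 := horth _ h1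
    have h3 : ⟪η, (η - R.N x η) - R.N (-x) (η - R.N x η)⟫_ℂ = 0 := by
      rw [← inner_conj_symm, h2, map_zero]
    rw [inner_sub_right, R.inner_N, neg_neg, ← inner_sub_left] at h3
    have h4 := inner_self_eq_zero.1 h3
    exact (sub_eq_zero.1 h4).symm
  have hη0 : η = 0 := hK0 η hηK hinv
  have hφP : φ = P := sub_eq_zero.1 hη0
  have hφA : φ ∈ A := by
    rw [hφP]
    exact hDA hPD
  exact (hA φ).1 hφA

end

end Pool.H29.DEC
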