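import Pool.Agent.H29.DEC.Eqv

/-!
# LIMZ: `op f(t •) φ → φ` as `t → 0` if `f 0 = 1`

By `op_scale` and `integral_ker`:
`op f(t •) φ - φ = ∫ ker f y • (N (t y) φ - φ) dy`, dominated convergence.
-/

namespace Pool.H29.DEC

open MeasureTheory Filter Topology
open scoped FourierTransform SchwartzMap InnerProductSpace ContDiff

noncomputable section

variable {V : Type} [NormedAddCommGroup V] [InnerProductSpace ℝ V] [FiniteDimensional ℝ V]
  [MeasurableSpace V] [BorelSpace V]
variable {H : Type} [NormedAddCommGroup H] [InnerProductSpace ℂ H] [CompleteSpace H]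

theorem VRep.lim_zero (R : VRep V H) {f : V → ℝ} (hf : Tst f) (h0 : f 0 = 1) (φ : H) :
    Tendsto (fun t : ℝ => R.op (fun ξ => f (t • ξ)) φ) (𝓝[>] 0) (𝓝 φ) := by
  have hlim : ∫ y, ker f y • φ = φ := by
    rw [integral_smul_const, integral_ker hf, h0]
    simp
  have h1 : Tendsto (fun t : ℝ => ∫ y, ker f y • R.N (t • y) φ) (𝓝[>] 0) (𝓝 (∫ y, ker f y • φ)) := by
    refine tendsto_integral_filter_of_dominated_convergence (fun y => ‖ker f y‖ * ‖φ‖) ?_ ?_
      ((ker_integrable hf).norm.mul_const ‖φ‖) ?_
    · refine Eventually.of_forall fun t => ?_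
      have hc : Continuous (fun y : V => R.N (t • y) φ) :=
        (R.cont φ).comp (continuous_const_smul t)
      exact (ker_integrable hf).aestronglyMeasurable.smul hc.aestronglyMeasurable
    · refine Eventually.of_forall fun t => Eventually.of_forall fun y => ?_
      rw [norm_smul, R.isom]
    · refine Eventually.of_forall fun y => ?_
      have hc : Continuous (fun t : ℝ => R.N (t • y) φ) :=
        (R.cont φ).comp (continuous_id.smul continuous_const)
      have h2 : Tendsto (fun t : ℝ => R.N (t • y) φ) (𝓝 0) (𝓝 φ) := by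
        have h3 := hc.tendsto 0
        rwa [zero_smul, R.zero] at h3
      exact tendsto_const_nhds.smul (h2.mono_left nhdsWithin_le_nhds)
  rw [hlim] at h1
  refine h1.congr' ?_
  filter_upwards [self_mem_nhdsWithin] with t ht
  exact (R.op_scale hf ht φ).symm

end

end Pool.H29.DEC
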