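import Pool.Agent.H29.DEC.SecOp
import Pool.Agent.H29.DEC.Cut
import Pool.Agent.H29.DEC.LimZ
import Pool.Agent.H29.DEC.LimI

/-!
# MAIN: decay of matrix coefficients of `SL2 ⋉ ℝ²`, abstract form
-/

namespace Pool.H29.DEC

open MeasureTheory Filter Topology
open scoped InnerProductSpace

noncomputable section

variable {H : Type} [NormedAddCommGroup H] [InnerProductSpace ℂ H] [CompleteSpace H]

private theorem main_lim (R : VRep V2 H) (K : Submodule ℂ H)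
    (hKc : IsClosed (K : Set H)) (hKi : ∀ x, ∀ φ ∈ K, R.N x φ ∈ K)
    (hK0 : ∀ φ ∈ K, (∀ x, R.N x φ = φ) → φ = 0) {φ : H} (hφK : φ ∈ K) :
    Tendsto (fun t : ℝ => R.op (rh t) φ) (𝓝[>] 0) (𝓝 φ) := by
  have h1 := R.lim_zero th_tst th_zero φ
  have h2 := (R.lim_top th_tst K hKc hKi hK0 hφK).comp tendsto_inv_nhdsGT_zero
  have h3 := h1.sub h2
  rw [sub_zero] at h3
  refine h3.congr' ?_
  filter_upwards [self_mem_nhdsWithin] with t ht
  have ht' : (0 : ℝ) < t := ht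
  have := R.op_sub (f := fun ξ => th (t • ξ)) (g := fun ξ => th (t⁻¹ • ξ))
    (th_tst.comp_smul ht'.ne') (th_tst.comp_smul (inv_ne_zero ht'.ne')) φ
  exact this.symm

private theorem main_fix (R : VRep V2 H) (k : ℝ → H →L[ℂ] H)
    (hk : ∀ θ x φ, k θ (R.N x φ) = R.N (rot2 θ x) (k θ φ))
    (hiso : ∀ θ φ, ‖k θ φ‖ = ‖φ‖) {ψ : H} (hψ : ∀ θ, k θ ψ = ψ) {f : V2 → ℝ} (hf : Tst f)
    (θ : ℝ) : ‖R.op f ψ‖ = ‖R.op (fun ξ => f (rot2 θ ξ)) ψ‖ := by
  obtain ⟨B, hB⟩ := exists_rotL (-θ)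
  obtain ⟨C, hC⟩ := exists_rotL θ
  have hBm : MeasurePreserving (fun x => B x) (volume : Measure V2) volume := by
    have : (fun x => B x) = rot2 (-θ) := funext hB
    rw [this]
    exact mp_rot2 _
  have hCm : MeasurePreserving (fun x => C x) (volume : Measure V2) volume := by
    have : (fun x => C x) = rot2 θ := funext hC
    rw [this]
    exact mp_rot2 _
  have h := R.op_equiv B C hBm hCm
    (by
      intro x y
      rw [hB, hC]
      have := inner_rot2 (-θ) x y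
      rwa [neg_neg] at this)
    (k (-θ)) (by intro x φ; rw [hk, hB]) hf ψ
  rw [hψ] at h
  have h2 : (fun ξ => f (C ξ)) = (fun ξ => f (rot2 θ ξ)) := by
    funext ξ; rw [hC]
  rw [h2] at h
  rw [← h, hiso]

private theorem main_dil (R : VRep V2 H) (s : ℝ) (A : H →L[ℂ] H)
    (hA : ∀ x φ, A (R.N x φ) = R.N (dil2 s x) (A φ)) {f : V2 → ℝ} (hf : Tst f) (φ : H) :
    A (R.op f φ) = R.op (fun ξ => f (dil2 s ξ)) (A φ) := by
  obtain ⟨B, hB⟩ := exists_dilL s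
  have hBm : MeasurePreserving (fun x => B x) (volume : Measure V2) volume := by
    have : (fun x => B x) = dil2 s := funext hB
    rw [this]
    exact mp_dil2 _
  have h := R.op_equiv B B hBm hBm
    (by
      intro x y
      rw [hB, hB]
      exact inner_dil2 s x y)
    A (by intro x φ; rw [hA, hB]) hf φ
  rw [h]
  congr 1
  funext ξ
  rw [hB]

private theorem main_dil_tst (s : ℝ) {f : V2 → ℝ} (hf : Tst f) :
    Tst (fun ξ => f (dil2 s ξ)) := by
  obtain ⟨B, hB⟩ := exists_dilL s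
  have := hf.comp_equiv B
  have h2 : (fun ξ => f (B ξ)) = (fun ξ => f (dil2 s ξ)) := by
    funext ξ; rw [hB]
  rwa [h2] at this

private theorem main_rot_tst (θ : ℝ) {f : V2 → ℝ} (hf : Tst f) :
    Tst (fun ξ => f (rot2 θ ξ)) := by
  obtain ⟨B, hB⟩ := exists_rotL θ
  have := hf.comp_equiv B
  have h2 : (fun ξ => f (B ξ)) = (fun ξ => f (rot2 θ ξ)) := by
    funext ξ; rw [hB]
  rwa [h2] at this

theorem VRep.decay (R : VRep V2 H) (K : Submodule ℂ H)
    (hKc : IsClosed (K : Set H)) (hKi : ∀ x, ∀ φ ∈ K, R.N x φ ∈ K)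
    (hK0 : ∀ φ ∈ K, (∀ x, R.N x φ = φ) → φ = 0) (k : ℝ → H →L[ℂ] H)
    (hk : ∀ θ x φ, k θ (R.N x φ) = R.N (rot2 θ x) (k θ φ))
    (hiso : ∀ θ φ, ‖k θ φ‖ = ‖φ‖) (s : ℝ) (A : H →L[ℂ] H)
    (hA : ∀ x φ, A (R.N x φ) = R.N (dil2 s x) (A φ)) (hAiso : ∀ φ, ‖A φ‖ = ‖φ‖)
    {φ ψ : H} (hφK : φ ∈ K) (hφ : ∀ θ, k θ φ = φ) (hψ : ∀ θ, k θ ψ = ψ) :
    ‖⟪ψ, A φ⟫_ℂ‖ ≤ 4 * Real.exp (-s / 2) * ‖φ‖ * ‖ψ‖ := by
  set δ : ℝ := Real.exp (-s) with hδdef
  have hδ : 0 < δ := Real.exp_pos _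
  set e : ℝ := Real.exp (-s / 2) with hedef
  have he : 0 < e := Real.exp_pos _
  have hee : e ^ 2 = δ := by
    rw [hedef, hδdef, ← Real.exp_nat_mul]
    congr 1
    push_cast
    ring
  by_cases hsmall : 1 / 2 < δ
  · -- trivial bound
    have h1 : ‖⟪ψ, A φ⟫_ℂ‖ ≤ ‖ψ‖ * ‖φ‖ := by
      have := norm_inner_le_norm (𝕜 := ℂ) ψ (A φ)
      rwa [hAiso] at this
    have h2 : (1 : ℝ) ≤ 4 * e := by nlinarith
    have h3 : ‖ψ‖ * ‖φ‖ ≤ 4 * e * (‖ψ‖ * ‖φ‖) :=
      le_mul_of_one_le_left (mul_nonneg (norm_nonneg _) (norm_nonneg _)) h2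
    calc ‖⟪ψ, A φ⟫_ℂ‖ ≤ ‖ψ‖ * ‖φ‖ := h1
      _ ≤ 4 * e * (‖ψ‖ * ‖φ‖) := h3
      _ = 4 * e * ‖φ‖ * ‖ψ‖ := by ring
  · have hδ2 : δ ≤ 1 / 2 := not_lt.mp hsmall
    have key : ∀ t : ℝ, 0 < t → t ≤ 1 / 2 →
        ‖⟪ψ, A (R.op (rh t) φ)⟫_ℂ‖ ≤ 4 * e * ‖φ‖ * ‖ψ‖ := by
      intro t ht ht'
      have hχ1 : Tst (fun ξ => rh t ξ * al δ ξ) := rh_al_tst ht ht' hδ
      have hχ2 : Tst (fun ξ => rh t ξ - rh t ξ * al δ ξ) := (rh_tst ht).sub hχ1
      have hsplit : R.op (rh t) φ = R.op (fun ξ => rh t ξ * al δ ξ) φ +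
          R.op (fun ξ => rh t ξ - rh t ξ * al δ ξ) φ := by
        rw [← R.op_add hχ1 hχ2]
        congr 1
        funext ξ
        ring
      have hr0 := fun ξ => rh_nonneg ht ht' ξ
      have hr1 := fun ξ => rh_le_one (t := t) ξ
      have ha0 := fun ξ => al_nonneg δ ξ
      have ha1 := fun ξ => al_le_one δ ξ
      -- first term
      have b1 : ‖R.op (fun ξ => rh t ξ * al δ ξ) φ‖ ≤ 2 * e * ‖φ‖ := by
        have h := R.sector_op k hk hiso hφ hχ1
          (by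
            intro ξ
            rw [abs_of_nonneg (mul_nonneg (hr0 ξ) (ha0 ξ))]
            exact mul_le_one₀ (hr1 ξ) (ha0 ξ) (ha1 ξ))
          (η := 2 * δ) (by positivity) (by linarith)
          (by
            intro ξ hξ
            exact rh_al_ne ht ht' hδ ξ hξ)
        apply abs_le_of_sq_le_sq' _ (by positivity) |>.2
        calc ‖R.op (fun ξ => rh t ξ * al δ ξ) φ‖ ^ 2 ≤ 2 * (2 * δ) * ‖φ‖ ^ 2 := h
          _ = (2 * e * ‖φ‖) ^ 2 := by rw [← hee]; ring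
      -- second term
      set χ : V2 → ℝ := fun ξ => rh t ξ - rh t ξ * al δ ξ with hχdef
      have hχ3 : Tst (fun ξ => χ (dil2 s ξ)) := main_dil_tst s hχ2
      have hχ4 : Tst (fun ξ => χ (dil2 s (rot2 (Real.pi / 2) ξ))) :=
        main_rot_tst (Real.pi / 2) hχ3
      have b2 : ‖R.op (fun ξ => χ (dil2 s ξ)) ψ‖ ≤ 3 / 2 * e * ‖ψ‖ := by
        rw [main_fix R k hk hiso hψ hχ3 (Real.pi / 2)]
        have h := R.sector_op k hk hiso hψ hχ4
          (by
            intro ξ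
            simp only [hχdef]
            have h1 := hr0 (dil2 s (rot2 (Real.pi / 2) ξ))
            have h2 := hr1 (dil2 s (rot2 (Real.pi / 2) ξ))
            have h3 := ha0 (dil2 s (rot2 (Real.pi / 2) ξ))
            have h4 := ha1 (dil2 s (rot2 (Real.pi / 2) ξ))
            rw [abs_le]
            constructor <;> nlinarith)
          (η := δ) hδ (by linarith)
          (by
            intro ξ hξ
            have h5 := rh_al_ne' ht ht' hδ _ hξ
            have h6 : (dil2 s (rot2 (Real.pi / 2) ξ)) 1 = δ * ξ 0 := by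
              simp [dil2, rot2, hδdef]
            have h7 : (dil2 s (rot2 (Real.pi / 2) ξ)) 0 = - (Real.exp s * ξ 1) := by
              simp [dil2, rot2]
            have h8 : |(dil2 s (rot2 (Real.pi / 2) ξ)) 0| ≤ ‖dil2 s (rot2 (Real.pi / 2) ξ)‖ := by
              have := PiLp.norm_apply_le (dil2 s (rot2 (Real.pi / 2) ξ)) 0
              simpa using this
            have h9 : |ξ 0| ≤ ‖ξ‖ := by
              have := PiLp.norm_apply_le ξ 0
              simpa using this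
            rw [h6, abs_mul, abs_of_pos hδ] at h5
            have h10 := lt_of_mul_lt_mul_left h5 hδ.le
            rw [h7, abs_neg, abs_mul, abs_of_pos (Real.exp_pos s)] at h8
            have h11 : Real.exp s * |ξ 1| < ‖ξ‖ := by linarith
            have h12 : δ * Real.exp s = 1 := by
              rw [hδdef, ← Real.exp_add]
              simp
            calc |ξ 1| = δ * (Real.exp s * |ξ 1|) := by rw [← mul_assoc, h12, one_mul]
              _ < δ * ‖ξ‖ := mul_lt_mul_of_pos_left h11 hδ)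
        apply abs_le_of_sq_le_sq' _ (by positivity) |>.2
        calc ‖R.op (fun ξ => χ (dil2 s (rot2 (Real.pi / 2) ξ))) ψ‖ ^ 2
            ≤ 2 * δ * ‖ψ‖ ^ 2 := h
          _ ≤ (3 / 2 * e * ‖ψ‖) ^ 2 := by
            rw [← hee]
            nlinarith [mul_nonneg (sq_nonneg e) (sq_nonneg ‖ψ‖)]
      have c1 : ‖⟪ψ, A (R.op (fun ξ => rh t ξ * al δ ξ) φ)⟫_ℂ‖ ≤ ‖ψ‖ * (2 * e * ‖φ‖) := by
        refine (norm_inner_le_norm _ _).trans ?_
        rw [hAiso]
        exact mul_le_mul_of_nonneg_left b1 (norm_nonneg _)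
      have c2 : ‖⟪ψ, A (R.op χ φ)⟫_ℂ‖ ≤ (3 / 2 * e * ‖ψ‖) * ‖φ‖ := by
        rw [main_dil R s A hA hχ2 φ, R.op_symm hχ3]
        refine (norm_inner_le_norm _ _).trans ?_
        rw [hAiso]
        exact mul_le_mul_of_nonneg_right b2 (norm_nonneg _)
      rw [hsplit, map_add, inner_add_right]
      refine (norm_add_le _ _).trans ?_
      have h13 : 0 ≤ e * (‖φ‖ * ‖ψ‖) := by positivity
      nlinarith
    have hlim : Tendsto (fun t : ℝ => ‖⟪ψ, A (R.op (rh t) φ)⟫_ℂ‖) (𝓝[>] 0)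
        (𝓝 ‖⟪ψ, A φ⟫_ℂ‖) := by
      have h1 := main_lim R K hKc hKi hK0 hφK
      have h2 : Continuous (fun η : H => ‖⟪ψ, A η⟫_ℂ‖) := by fun_prop
      exact (h2.tendsto φ).comp h1
    refine le_of_tendsto hlim ?_
    have h4 : Set.Ioc (0 : ℝ) (1 / 2) ∈ 𝓝[>] (0 : ℝ) := Ioc_mem_nhdsGT (by norm_num)
    filter_upwards [h4] with t ht
    exact key t ht.1 ht.2

end

end Pool.H29.DEC
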