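import Pool.Agent.H88.LF.Defs

/-!
# MAU: Mautner's lemma for `SL(3,ℝ)`

Let `φ` be fixed by the root group `U i m`, `l` the third index.  For `λ > 0`, `ε ≠ 0`:
`U i m ((λ-1)/ε) * U m i ε * U i m ((1/λ-1)/ε)` has the `(i,m)` block `[λ, 0; ε, 1/λ]`, so it tends to
`diag(λ at i, 1/λ at m, 1 at l)` as `ε → 0`, while `⟪φ, π(·) φ⟫ = ⟪φ, π(U m i ε) φ⟫ → ‖φ‖²`.  So
`⟪φ, π(d) φ⟫ = ‖φ‖²`, i.e. `π(d) φ = φ`, for `d = d_λ`.  If `d_a > d_b` then
`d^{-n} U a b s d^n = U a b (s (d_a/d_b)^{-n}) → 1`, so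
`‖π(U a b s) φ - φ‖ = ‖π(d^{-n} U a b s d^n) φ - φ‖ → 0`: with `λ = 2` this gives all root groups
`(i,m), (i,l), (l,m)`, with `λ = 1/2` the groups `(m,i), (l,i), (m,l)`.  So all transvections fix `φ`, and (same
argument for every pair, any `λ ≠ 0`, or directly) all diagonal matrices in `G`;
`Matrix.diagonal_transvection_induction` with
`P A := A.det = 1 ∧ ∀ h, R.π ⟨A, h⟩ φ = φ` gives all of `G`.
-/

set_option autoImplicit false

open MeasureTheory Set Filter
open scoped Topology InnerProductSpace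

namespace Pool.Agent.H88.LF

/-- entries of the diagonal matrix -/
noncomputable def MAU_e (i m : Fin 3) (c : ℝ) : Fin 3 → ℝ := fun a =>
  if a = i then c else if a = m then c⁻¹ else 1

theorem MAU_det (i m : Fin 3) (h : i ≠ m) {c : ℝ} (hc : c ≠ 0) :
    (Matrix.diagonal (MAU_e i m c) : Mat).det = 1 := by
  rw [Matrix.det_diagonal, Fin.prod_univ_three]
  have h1 := mul_inv_cancel₀ hc
  have h2 := inv_mul_cancel₀ hc
  fin_cases i <;> fin_cases m <;> first | exact absurd rfl h | skip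
  all_goals simp [MAU_e, h1, h2]

/-- the diagonal element -/
noncomputable def MAU_d (i m : Fin 3) (h : i ≠ m) (c : ℝ) (hc : c ≠ 0) : G :=
  ⟨Matrix.diagonal (MAU_e i m c), MAU_det i m h hc⟩

theorem MAU_U_cont (i m : Fin 3) (h : i ≠ m) : Continuous (U i m h) := by
  rw [closedEmb_val.isEmbedding.continuous_iff]
  change Continuous fun s => Matrix.transvection i m s
  unfold Matrix.transvection
  refine continuous_const.add ?_
  refine continuous_matrix fun a b => ?_
  simp only [Matrix.single_apply]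
  split_ifs
  · exact continuous_id
  · exact continuous_const

theorem MAU_U_zero (i m : Fin 3) (h : i ≠ m) : U i m h 0 = 1 := by
  apply Subtype.ext
  change (Matrix.transvection i m (0 : ℝ) : Mat) = (1 : Mat)
  exact Matrix.transvection_zero i m

theorem MAU_prod (i m : Fin 3) (h : i ≠ m) (c ε : ℝ) (hc : c ≠ 0) (hε : ε ≠ 0) :
    U i m h ((c - 1) / ε) * U m i h.symm ε * U i m h ((c⁻¹ - 1) / ε) =
      MAU_d i m h c hc * U m i h.symm (ε * c) := by
  apply Subtype.ext
  change Matrix.transvection i m ((c - 1) / ε) * Matrix.transvection m i ε *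
    Matrix.transvection i m ((c⁻¹ - 1) / ε) =
      Matrix.diagonal (MAU_e i m c) * Matrix.transvection m i (ε * c)
  ext a b
  fin_cases i <;> fin_cases m <;> first | exact absurd rfl h | skip
  all_goals
    fin_cases a <;> fin_cases b <;>
    simp [Matrix.mul_apply, Matrix.transvection, Fin.sum_univ_three, Matrix.one_apply,
      Matrix.single_apply, MAU_e, Matrix.diagonal_apply]
  all_goals try field_simp
  all_goals try ring

theorem MAU_fix_d {H : Type} [NormedAddCommGroup H] [InnerProductSpace ℂ H]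
    (R : URep H) (i m : Fin 3) (h : i ≠ m) (φ : H) (hφ : ∀ s, R.π (U i m h s) φ = φ)
    (c : ℝ) (hc : c ≠ 0) : R.π (MAU_d i m h c hc) φ = φ := by
  have h1 : ∀ ε : ℝ, ε ≠ 0 →
      ‖R.π (MAU_d i m h c hc * U m i h.symm (ε * c)) φ - φ‖ = ‖R.π (U m i h.symm ε) φ - φ‖ := by
    intro ε hε
    rw [← MAU_prod i m h c ε hc hε, R.mul, R.mul, hφ]
    nth_rewrite 2 [← hφ ((c - 1) / ε)]
    rw [← map_sub, R.isom]
  have h2 : Tendsto (fun ε : ℝ => ‖R.π (MAU_d i m h c hc * U m i h.symm (ε * c)) φ - φ‖)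
      (𝓝[≠] 0) (𝓝 ‖R.π (MAU_d i m h c hc) φ - φ‖) := by
    have e1 : Continuous fun ε : ℝ => ‖R.π (MAU_d i m h c hc * U m i h.symm (ε * c)) φ - φ‖ := by
      have e2 : Continuous fun ε : ℝ => MAU_d i m h c hc * U m i h.symm (ε * c) :=
        continuous_const.mul ((MAU_U_cont m i h.symm).comp (by fun_prop))
      exact (((R.cont φ).comp e2).sub continuous_const).norm
    have e3 := (e1.tendsto 0).mono_left (nhdsWithin_le_nhds (s := {0}ᶜ))
    simpa [MAU_U_zero] using e3
  have h3 : Tendsto (fun ε : ℝ => ‖R.π (U m i h.symm ε) φ - φ‖) (𝓝[≠] 0) (𝓝 0) := by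
    have e1 : Continuous fun ε : ℝ => ‖R.π (U m i h.symm ε) φ - φ‖ :=
      (((R.cont φ).comp (MAU_U_cont m i h.symm)).sub continuous_const).norm
    have e3 := (e1.tendsto 0).mono_left (nhdsWithin_le_nhds (s := {0}ᶜ))
    simpa [MAU_U_zero, R.one] using e3
  have h4 : Tendsto (fun ε : ℝ => ‖R.π (MAU_d i m h c hc * U m i h.symm (ε * c)) φ - φ‖)
      (𝓝[≠] 0) (𝓝 0) := by
    refine h3.congr' ?_
    filter_upwards [self_mem_nhdsWithin] with ε hε
    exact (h1 ε hε).symm
  have h5 := tendsto_nhds_unique h2 h4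
  rw [norm_eq_zero, sub_eq_zero] at h5
  exact h5

/-- the weight -/
noncomputable def MAU_w (i m : Fin 3) : Fin 3 → ℝ := fun a =>
  if a = i then 1 else if a = m then -1 else 0

theorem MAU_e_exp (i m : Fin 3) (x : ℝ) (a : Fin 3) :
    MAU_e i m (Real.exp x) a = Real.exp (MAU_w i m a * x) := by
  unfold MAU_e MAU_w
  split_ifs
  · rw [one_mul]
  · rw [neg_one_mul, Real.exp_neg]
  · rw [zero_mul, Real.exp_zero]

theorem MAU_w_ne (i m : Fin 3) (h : i ≠ m) (a b : Fin 3) (hab : a ≠ b) :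
    MAU_w i m b - MAU_w i m a ≠ 0 := by
  fin_cases i <;> fin_cases m <;> first | exact absurd rfl h | skip
  all_goals
    fin_cases a <;> fin_cases b <;> first | exact absurd rfl hab | skip
  all_goals norm_num [MAU_w]

theorem MAU_conj (i m : Fin 3) (h : i ≠ m) (a b : Fin 3) (hab : a ≠ b) (s x : ℝ) :
    U a b hab s * MAU_d i m h (Real.exp x) (Real.exp_ne_zero x) =
      MAU_d i m h (Real.exp x) (Real.exp_ne_zero x) *
        U a b hab (s * Real.exp ((MAU_w i m b - MAU_w i m a) * x)) := by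
  apply Subtype.ext
  change Matrix.transvection a b s * Matrix.diagonal (MAU_e i m (Real.exp x)) =
    Matrix.diagonal (MAU_e i m (Real.exp x)) * Matrix.transvection a b _
  ext p q
  rw [Matrix.mul_diagonal, Matrix.diagonal_mul, MAU_e_exp, MAU_e_exp]
  simp only [Matrix.transvection, Matrix.add_apply, Matrix.single_apply, Matrix.one_apply]
  by_cases h1 : a = p ∧ b = q
  · obtain ⟨rfl, rfl⟩ := h1
    simp only [hab, if_false, and_self, if_true, zero_add]
    rw [sub_mul, Real.exp_sub]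
    have := Real.exp_ne_zero (MAU_w i m a * x)
    field_simp
  · rw [if_neg h1, if_neg h1, add_zero]
    by_cases h2 : p = q
    · subst h2
      simp
    · simp [h2]

theorem MAU_fix_U {H : Type} [NormedAddCommGroup H] [InnerProductSpace ℂ H]
    (R : URep H) (i m : Fin 3) (h : i ≠ m) (φ : H) (hφ : ∀ s, R.π (U i m h s) φ = φ)
    (a b : Fin 3) (hab : a ≠ b) (s : ℝ) : R.π (U a b hab s) φ = φ := by
  have hw := MAU_w_ne i m h a b hab
  have h1 : ∀ n : ℕ, ‖R.π (U a b hab s) φ - φ‖ =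
      ‖R.π (U a b hab (s * Real.exp (-(n : ℝ)))) φ - φ‖ := by
    intro n
    have e1 := MAU_conj i m h a b hab s (-(n : ℝ) / (MAU_w i m b - MAU_w i m a))
    have e2 : (MAU_w i m b - MAU_w i m a) * (-(n : ℝ) / (MAU_w i m b - MAU_w i m a)) = -(n : ℝ) := by
      field_simp
    rw [e2] at e1
    have hd := MAU_fix_d R i m h φ hφ (Real.exp (-(n : ℝ) / (MAU_w i m b - MAU_w i m a)))
      (Real.exp_ne_zero _)
    have e3 : R.π (U a b hab s) φ = R.π (MAU_d i m h
        (Real.exp (-(n : ℝ) / (MAU_w i m b - MAU_w i m a))) (Real.exp_ne_zero _))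
          (R.π (U a b hab (s * Real.exp (-(n : ℝ)))) φ) := by
      rw [← R.mul, ← e1, R.mul, hd]
    rw [e3]
    have e4 : ∀ ψ : H, ‖R.π (MAU_d i m h
        (Real.exp (-(n : ℝ) / (MAU_w i m b - MAU_w i m a))) (Real.exp_ne_zero _)) ψ - φ‖ =
          ‖ψ - φ‖ := by
      intro ψ
      have e5 : R.π (MAU_d i m h
        (Real.exp (-(n : ℝ) / (MAU_w i m b - MAU_w i m a))) (Real.exp_ne_zero _)) ψ - φ =
        R.π (MAU_d i m h
        (Real.exp (-(n : ℝ) / (MAU_w i m b - MAU_w i m a))) (Real.exp_ne_zero _)) (ψ - φ) := by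
        rw [map_sub, hd]
      rw [e5, R.isom]
    rw [e4]
  have h2 : Tendsto (fun n : ℕ => ‖R.π (U a b hab (s * Real.exp (-(n : ℝ)))) φ - φ‖) atTop
      (𝓝 0) := by
    have e1 : Continuous fun t : ℝ => ‖R.π (U a b hab t) φ - φ‖ :=
      (((R.cont φ).comp (MAU_U_cont a b hab)).sub continuous_const).norm
    have e2 : Tendsto (fun n : ℕ => s * Real.exp (-(n : ℝ))) atTop (𝓝 0) := by
      have e3 := (Real.tendsto_exp_neg_atTop_nhds_zero.comp
        (tendsto_natCast_atTop_atTop (R := ℝ))).const_mul s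
      simpa using e3
    have e4 := (e1.tendsto 0).comp e2
    simpa [MAU_U_zero, R.one, Function.comp_def] using e4
  have h3 : Tendsto (fun _ : ℕ => ‖R.π (U a b hab s) φ - φ‖) atTop (𝓝 0) :=
    h2.congr fun n => (h1 n).symm
  have h4 := tendsto_nhds_unique tendsto_const_nhds h3
  rw [norm_eq_zero, sub_eq_zero] at h4
  exact h4

theorem MAU_fix_diag {H : Type} [NormedAddCommGroup H] [InnerProductSpace ℂ H]
    (R : URep H) (φ : H) (hφ : ∀ (a b : Fin 3) (hab : a ≠ b) (s : ℝ), R.π (U a b hab s) φ = φ)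
    (e : Fin 3 → ℝ) (he : (Matrix.diagonal e : Mat).det = 1) :
    R.π ⟨Matrix.diagonal e, he⟩ φ = φ := by
  have h0 : e 0 * e 1 * e 2 = 1 := by
    rw [Matrix.det_diagonal, Fin.prod_univ_three] at he
    exact he
  have hn0 : e 0 ≠ 0 := fun h => by simp [h] at h0
  have hn1 : e 1 ≠ 0 := fun h => by simp [h] at h0
  have h1 : (⟨Matrix.diagonal e, he⟩ : G) = MAU_d 0 2 (by decide) (e 0) hn0 *
      MAU_d 1 2 (by decide) (e 1) hn1 := by
    apply Subtype.ext
    change Matrix.diagonal e = Matrix.diagonal (MAU_e 0 2 (e 0)) * Matrix.diagonal (MAU_e 1 2 (e 1))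
    rw [Matrix.diagonal_mul_diagonal]
    congr 1
    funext a
    fin_cases a
    · simp [MAU_e]
    · simp [MAU_e]
    · have : e 2 = (e 0)⁻¹ * (e 1)⁻¹ := by
        field_simp
        linarith
      simp [MAU_e, this]
  rw [h1, R.mul, MAU_fix_d R 1 2 _ φ (fun s => hφ 1 2 _ s), MAU_fix_d R 0 2 _ φ (fun s => hφ 0 2 _ s)]

theorem mautner {H : Type} [NormedAddCommGroup H] [InnerProductSpace ℂ H]
    (R : URep H) (i m : Fin 3) (h : i ≠ m) (φ : H) (hφ : ∀ s, R.π (U i m h s) φ = φ) (g : G) :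
    R.π g φ = φ := by
  have hU := MAU_fix_U R i m h φ hφ
  have key : ∃ hg : (g.1).det = 1, R.π ⟨g.1, hg⟩ φ = φ := by
    apply Matrix.diagonal_transvection_induction
      (P := fun A : Mat => ∃ hA : A.det = 1, R.π ⟨A, hA⟩ φ = φ)
    · intro e he
      have he' : (Matrix.diagonal e : Mat).det = 1 := by rw [he]; exact g.2
      exact ⟨he', MAU_fix_diag R φ hU e he'⟩
    · intro t
      refine ⟨t.det, ?_⟩
      exact hU t.i t.j t.hij t.c
    · rintro A B ⟨hA, hA'⟩ ⟨hB, hB'⟩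
      refine ⟨by rw [Matrix.det_mul, hA, hB, one_mul], ?_⟩
      have e2 := R.mul (⟨A, hA⟩ : Matrix.SpecialLinearGroup (Fin 3) ℝ)
        (⟨B, hB⟩ : Matrix.SpecialLinearGroup (Fin 3) ℝ) φ
      rw [hB', hA'] at e2
      exact e2
  obtain ⟨_, hg⟩ := key
  exact hg

end Pool.Agent.H88.LF
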