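import Pool.Agent.H29.DEC.Defs

/-!
# TST: closure properties of test functions (all easy)
-/

namespace Pool.H29.DEC

open MeasureTheory Filter Topology
open scoped FourierTransform SchwartzMap InnerProductSpace ContDiff

noncomputable section

variable {V : Type} [NormedAddCommGroup V] [InnerProductSpace ℝ V]

theorem Tst.add {f g : V → ℝ} (hf : Tst f) (hg : Tst g) : Tst (fun ξ => f ξ + g ξ) :=
  ⟨hf.1.add hg.1, hf.2.add hg.2⟩

theorem Tst.const_mul (c : ℝ) {f : V → ℝ} (hf : Tst f) : Tst (fun ξ => c * f ξ) :=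
  ⟨contDiff_const.mul hf.1, hf.2.comp_left (g := fun y => c * y) (by simp)⟩

theorem Tst.sub {f g : V → ℝ} (hf : Tst f) (hg : Tst g) : Tst (fun ξ => f ξ - g ξ) := by
  have h := hf.add (hg.const_mul (-1))
  have he : (fun ξ => f ξ - g ξ) = fun ξ => f ξ + -1 * g ξ := by
    funext ξ; ring
  rw [he]
  exact h

theorem Tst.mul {f g : V → ℝ} (hf : Tst f) (hg : Tst g) : Tst (fun ξ => f ξ * g ξ) :=
  ⟨hf.1.mul hg.1, hf.2.mul_right⟩

theorem Tst.sq {f : V → ℝ} (hf : Tst f) : Tst (fun ξ => f ξ ^ 2) :=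
  ⟨hf.1.pow 2, hf.2.comp_left (g := fun y => y ^ 2) (by simp)⟩

theorem Tst.sum {ι : Type} (s : Finset ι) {f : ι → V → ℝ} (hf : ∀ j ∈ s, Tst (f j)) :
    Tst (fun ξ => ∑ j ∈ s, f j ξ) := by
  classical
  induction s using Finset.induction_on with
  | empty =>
    simp only [Finset.sum_empty]
    exact ⟨contDiff_const, HasCompactSupport.zero⟩
  | @insert a s ha ih =>
    simp only [Finset.sum_insert ha]
    exact (hf a (Finset.mem_insert_self a s)).add
      (ih (fun j hj => hf j (Finset.mem_insert_of_mem hj)))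

theorem Tst.comp_equiv [FiniteDimensional ℝ V] {f : V → ℝ} (hf : Tst f) (B : V ≃L[ℝ] V) :
    Tst (fun ξ => f (B ξ)) :=
  ⟨hf.1.comp B.contDiff, hf.2.comp_homeomorph B.toHomeomorph⟩

theorem Tst.comp_smul {f : V → ℝ} (hf : Tst f) {t : ℝ} (ht : t ≠ 0) :
    Tst (fun ξ => f (t • ξ)) :=
  ⟨hf.1.comp (contDiff_const_smul t), hf.2.comp_smul ht⟩

/-- the square root trick: for `f < c` the function `√c - √(c - f)` is a test function -/
theorem Tst.sqrt_trick {f : V → ℝ} (hf : Tst f) {c : ℝ} (hc : 0 < c) (h : ∀ ξ, f ξ < c) :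
    Tst (fun ξ => √c - √(c - f ξ)) := by
  refine ⟨?_, ?_⟩
  · refine contDiff_const.sub ?_
    exact (contDiff_const.sub hf.1).sqrt (fun ξ => (sub_pos.2 (h ξ)).ne')
  · exact hf.2.comp_left (g := fun y => √c - √(c - y)) (by simp)

end

end Pool.H29.DEC
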