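import Pool.Agent.H29.DEC.Ker
import Pool.Agent.H29.DEC.Tst

/-!
# OPA: first properties of `op`

Bochner integrals of `k x • R.N x φ`, `k` integrable: the function `x ↦ R.N x φ` is continuous and
bounded by `‖φ‖` (`Integrable.smul_bdd`/`bdd_mul` or `Integrable.mono'`).
Symmetry: `⟪ψ, N x φ⟫ = ⟪N (-x) ψ, φ⟫` (the `N x` are isometries with inverse `N (-x)`:
polarisation, or `LinearMap.isometry...`/`inner_map_map`), then substitute `x ↦ -x` and use
`ker_neg`.
-/

namespace Pool.H29.DEC

open MeasureTheory Filter Topology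
open scoped FourierTransform SchwartzMap InnerProductSpace ContDiff ComplexConjugate

noncomputable section

variable {V : Type} [NormedAddCommGroup V] [InnerProductSpace ℝ V] [FiniteDimensional ℝ V]
  [MeasurableSpace V] [BorelSpace V]
variable {H : Type} [NormedAddCommGroup H] [InnerProductSpace ℂ H] [CompleteSpace H]

theorem VRep.integrable_smul (R : VRep V H) {k : V → ℂ} (hk : Integrable k) (φ : H) :
    Integrable (fun x => k x • R.N x φ) := by
  refine Integrable.mono' (hk.norm.mul_const ‖φ‖)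
    (hk.aestronglyMeasurable.smul (R.cont φ).aestronglyMeasurable) (Eventually.of_forall fun x => ?_)
  rw [norm_smul, R.isom]

theorem VRep.norm_integral_le (R : VRep V H) {k : V → ℂ} (hk : Integrable k) (φ : H) :
    ‖∫ x, k x • R.N x φ‖ ≤ (∫ x, ‖k x‖) * ‖φ‖ := by
  refine (norm_integral_le_integral_norm _).trans (le_of_eq ?_)
  rw [← integral_mul_const]
  refine integral_congr_ae (Eventually.of_forall fun x => ?_)
  simp only [norm_smul, R.isom]

theorem VRep.inner_N (R : VRep V H) (x : V) (φ ψ : H) :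
    ⟪ψ, R.N x φ⟫_ℂ = ⟪R.N (-x) ψ, φ⟫_ℂ := by
  have h1 : R.N (-x) (R.N x φ) = φ := by rw [← R.add, neg_add_cancel, R.zero]
  have h2 := (LinearIsometry.mk (R.N (-x)).toLinearMap (R.isom (-x))).inner_map_map ψ (R.N x φ)
  have h3 : ⟪R.N (-x) ψ, R.N (-x) (R.N x φ)⟫_ℂ = ⟪ψ, R.N x φ⟫_ℂ := h2
  rw [← h3, h1]

theorem VRep.op_add_vec (R : VRep V H) {f : V → ℝ} (hf : Tst f) (φ ψ : H) :
    R.op f (φ + ψ) = R.op f φ + R.op f ψ := by
  unfold VRep.op
  rw [← integral_add (R.integrable_smul (ker_integrable hf) φ)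
    (R.integrable_smul (ker_integrable hf) ψ)]
  refine integral_congr_ae (Eventually.of_forall fun x => ?_)
  simp only [map_add, smul_add]

theorem VRep.op_sub_vec (R : VRep V H) {f : V → ℝ} (hf : Tst f) (φ ψ : H) :
    R.op f (φ - ψ) = R.op f φ - R.op f ψ := by
  unfold VRep.op
  rw [← integral_sub (R.integrable_smul (ker_integrable hf) φ)
    (R.integrable_smul (ker_integrable hf) ψ)]
  refine integral_congr_ae (Eventually.of_forall fun x => ?_)
  simp only [map_sub, smul_sub]

theorem VRep.op_smul_vec (R : VRep V H) {f : V → ℝ} (hf : Tst f) (c : ℂ) (φ : H) :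
    R.op f (c • φ) = c • R.op f φ := by
  unfold VRep.op
  rw [← integral_smul]
  refine integral_congr_ae (Eventually.of_forall fun x => ?_)
  simp only [map_smul]
  rw [smul_comm]

theorem VRep.op_add (R : VRep V H) {f g : V → ℝ} (hf : Tst f) (hg : Tst g) (φ : H) :
    R.op (fun ξ => f ξ + g ξ) φ = R.op f φ + R.op g φ := by
  unfold VRep.op
  rw [← integral_add (R.integrable_smul (ker_integrable hf) φ)
    (R.integrable_smul (ker_integrable hg) φ)]
  refine integral_congr_ae (Eventually.of_forall fun x => ?_)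
  simp only [ker_add hf hg, add_smul]

theorem VRep.op_const_mul (R : VRep V H) (c : ℝ) {f : V → ℝ} (hf : Tst f) (φ : H) :
    R.op (fun ξ => c * f ξ) φ = (c : ℂ) • R.op f φ := by
  unfold VRep.op
  rw [← integral_smul]
  refine integral_congr_ae (Eventually.of_forall fun x => ?_)
  simp only [ker_smul, mul_smul]

theorem VRep.op_sub (R : VRep V H) {f g : V → ℝ} (hf : Tst f) (hg : Tst g) (φ : H) :
    R.op (fun ξ => f ξ - g ξ) φ = R.op f φ - R.op g φ := by
  have h1 : (fun ξ => f ξ - g ξ) = fun ξ => f ξ + (-1) * g ξ := by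
    funext ξ; ring
  rw [h1, R.op_add hf (hg.const_mul (-1)), R.op_const_mul (-1) hg]
  push_cast
  rw [neg_one_smul, sub_eq_add_neg]

theorem VRep.op_sum (R : VRep V H) {ι : Type} (s : Finset ι) {f : ι → V → ℝ}
    (hf : ∀ j ∈ s, Tst (f j)) (φ : H) :
    R.op (fun ξ => ∑ j ∈ s, f j ξ) φ = ∑ j ∈ s, R.op (f j) φ := by
  classical
  induction s using Finset.induction_on with
  | empty =>
    unfold VRep.op
    have h0 : ∀ x, ker (fun ξ : V => ∑ j ∈ (∅ : Finset ι), f j ξ) x = 0 := by
      intro x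
      have h1 : (fun ξ : V => ∑ j ∈ (∅ : Finset ι), f j ξ) = fun ξ : V => (0:ℝ) * (fun _ : V => (0:ℝ)) ξ := by
        funext ξ; simp
      rw [h1, ker_smul]
      simp
    simp only [h0, zero_smul, integral_zero]
    rw [Finset.sum_empty]
  | insert a s ha ih =>
    have hs : ∀ j ∈ s, Tst (f j) := fun j hj => hf j (Finset.mem_insert_of_mem hj)
    have h1 : (fun ξ : V => ∑ j ∈ insert a s, f j ξ) = fun ξ => f a ξ + (fun η => ∑ j ∈ s, f j η) ξ := by
      funext ξ; rw [Finset.sum_insert ha]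
    rw [h1, R.op_add (hf a (Finset.mem_insert_self a s)) (Tst.sum s hs), ih hs, Finset.sum_insert ha]

theorem VRep.op_symm (R : VRep V H) {f : V → ℝ} (hf : Tst f) (φ ψ : H) :
    ⟪ψ, R.op f φ⟫_ℂ = ⟪R.op f ψ, φ⟫_ℂ := by
  have hL : ∀ ψ φ : H, ⟪ψ, R.op f φ⟫_ℂ = ∫ x, ker f x * ⟪ψ, R.N x φ⟫_ℂ := by
    intro ψ φ
    unfold VRep.op
    rw [← integral_inner (R.integrable_smul (ker_integrable hf) φ)]
    refine integral_congr_ae (Eventually.of_forall fun x => ?_)
    simp only [inner_smul_right]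
  rw [hL ψ φ, ← inner_conj_symm, hL φ ψ, ← integral_conj,
    ← integral_neg_eq_self (fun x => conj (ker f x * ⟪φ, R.N x ψ⟫_ℂ))]
  refine integral_congr_ae (Eventually.of_forall fun x => ?_)
  simp only [map_mul, ker_neg, Complex.conj_conj, inner_conj_symm]
  rw [R.inner_N x φ ψ]

theorem VRep.op_comm_N (R : VRep V H) {f : V → ℝ} (hf : Tst f) (x : V) (φ : H) :
    R.N x (R.op f φ) = R.op f (R.N x φ) := by
  unfold VRep.op
  rw [← ContinuousLinearMap.integral_comp_comm _ (R.integrable_smul (ker_integrable hf) φ)]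
  refine integral_congr_ae (Eventually.of_forall fun y => ?_)
  simp only [map_smul]
  rw [← R.add, ← R.add, add_comm]

/-- `op f` maps closed invariant subspaces to themselves
(`Convex.integral_mem` does not apply directly; use the orthogonal complement:
`⟪ψ, op f φ⟫ = ∫ ker f x * ⟪ψ, N x φ⟫ = 0` for `ψ ∈ Kᗮ`, and `Kᗮᗮ = K`). -/
theorem VRep.op_mem (R : VRep V H) (K : Submodule ℂ H) (hKc : IsClosed (K : Set H))
    (hKi : ∀ x, ∀ φ ∈ K, R.N x φ ∈ K) {f : V → ℝ} (hf : Tst f) {φ : H} (hφ : φ ∈ K) :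
    R.op f φ ∈ K := by
  have : CompleteSpace K := hKc.completeSpace_coe
  have : K.HasOrthogonalProjection := inferInstance
  rw [← K.orthogonal_orthogonal]
  rw [Submodule.mem_orthogonal]
  intro ψ hψ
  unfold VRep.op
  rw [← integral_inner (R.integrable_smul (ker_integrable hf) φ)]
  have h0 : ∀ x, ⟪ψ, ker f x • R.N x φ⟫_ℂ = 0 := by
    intro x
    rw [inner_smul_right, Submodule.inner_left_of_mem_orthogonal (hKi x φ hφ) hψ, mul_zero]
  simp [h0]

end

end Pool.H29.DEC
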