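import Pool.Agent.H29.DEC.OpA

/-!
# OPM: `op` is multiplicative

`op f (op g φ) = ∫ ker f y • N y (∫ ker g z • N z φ dz) dy = ∫∫ ker f y ker g z • N (y+z) φ dz dy`
`= ∫∫ ker f y ker g (x - y) • N x φ dx dy = ∫ (∫ ker f y ker g (x - y) dy) • N x φ dx` (Fubini, the
function `(y,x) ↦ ker f y * ker g (x - y)` is integrable: `Integrable.convolution_integrand` or
the measure preserving map `(y,x) ↦ (y,x-y)`), and `ker_mul`.
-/

namespace Pool.H29.DEC

open MeasureTheory Filter Topology
open scoped FourierTransform SchwartzMap InnerProductSpace ContDiff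

noncomputable section

variable {V : Type} [NormedAddCommGroup V] [InnerProductSpace ℝ V] [FiniteDimensional ℝ V]
  [MeasurableSpace V] [BorelSpace V]
variable {H : Type} [NormedAddCommGroup H] [InnerProductSpace ℂ H] [CompleteSpace H]

theorem VRep.op_mul (R : VRep V H) {f g : V → ℝ} (hf : Tst f) (hg : Tst g) (φ : H) :
    R.op (fun ξ => f ξ * g ξ) φ = R.op f (R.op g φ) := by
  have hint0 : Integrable (fun p : V × V => ker f p.2 * ker g (p.1 - p.2))
      ((volume : Measure V).prod volume) :=
    Integrable.convolution_integrand (ContinuousLinearMap.mul ℂ ℂ) (ker_integrable hf)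
      (ker_integrable hg)
  have hint : Integrable (fun p : V × V => (ker f p.2 * ker g (p.1 - p.2)) • R.N p.1 φ)
      ((volume : Measure V).prod volume) := by
    refine Integrable.mono' (hint0.norm.mul_const ‖φ‖)
      (hint0.aestronglyMeasurable.smul
        ((R.cont φ).comp continuous_fst).aestronglyMeasurable)
      (Eventually.of_forall fun p => ?_)
    rw [norm_smul, R.isom]
  unfold VRep.op
  calc ∫ x, ker (fun ξ => f ξ * g ξ) x • R.N x φ
      = ∫ x, ∫ y, (ker f y * ker g (x - y)) • R.N x φ := by
        refine integral_congr_ae (Eventually.of_forall fun x => ?_)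
        simp only []
        rw [ker_mul hf hg x, integral_smul_const]
    _ = ∫ y, ∫ x, (ker f y * ker g (x - y)) • R.N x φ :=
        integral_integral_swap (f := fun x y => (ker f y * ker g (x - y)) • R.N x φ) hint
    _ = ∫ y, ker f y • R.N y (∫ z, ker g z • R.N z φ) := by
        refine integral_congr_ae (Eventually.of_forall fun y => ?_)
        simp only []
        rw [← ContinuousLinearMap.integral_comp_comm _
          (R.integrable_smul (ker_integrable hg) φ), ← integral_smul,
          ← integral_sub_right_eq_self (fun z => ker f y • R.N y (ker g z • R.N z φ)) y]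
        refine integral_congr_ae (Eventually.of_forall fun x => ?_)
        simp only [map_smul]
        rw [← R.add, add_sub_cancel, mul_smul]

end

end Pool.H29.DEC
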