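import Pool.Agent.H29.DEC.Pla

/-!
# SEC: rotated thin sectors are disjoint

If `|(rot2 θ ξ) 1| < η ‖ξ‖` and `|(rot2 θ' ξ) 1| < η ‖ξ‖` then, with `p = sin θ ξ0 + cos θ ξ1`,
`p' = sin θ' ξ0 + cos θ' ξ1`: `p cos θ' - p' cos θ = ξ0 sin(θ-θ')`, `p' sin θ - p sin θ' = ξ1 sin (θ - θ')`,
so `|sin (θ - θ')| ‖ξ‖ ≤ |p| + |p'| < 2 η ‖ξ‖`.  For `θ = π j/N`, `θ' = π j'/N`, `j ≠ j' < N`:
`|sin (θ-θ')| ≥ 2/N` (Jordan: `Real.mul_le_sin`: `2/π x ≤ sin x` on `[0,π/2]`, and symmetry).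
-/

namespace Pool.H29.DEC

open MeasureTheory Filter Topology
open scoped InnerProductSpace

noncomputable section

theorem dec_sec_sin {N m : ℕ} (h1 : 1 ≤ m) (h2 : m < N) :
    2 / (N : ℝ) ≤ Real.sin (Real.pi * m / N) := by
  have hN : (0 : ℝ) < N := by exact_mod_cast (by omega : 0 < N)
  have key : ∀ k : ℕ, 1 ≤ k → 2 * k ≤ N → 2 / (N : ℝ) ≤ Real.sin (Real.pi * k / N) := by
    intro k hk1 hk2
    have h3 : Real.pi * k / N ≤ Real.pi / 2 := by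
      rw [div_le_div_iff₀ hN two_pos]
      have : (2 * k : ℝ) ≤ N := by exact_mod_cast hk2
      nlinarith [Real.pi_pos]
    have h4 := Real.mul_le_sin (x := Real.pi * k / N) (by positivity) h3
    refine le_trans ?_ h4
    have h5 : 2 / Real.pi * (Real.pi * k / N) = 2 * k / N := by
      field_simp
    rw [h5]
    refine div_le_div_of_nonneg_right ?_ hN.le
    have : (1 : ℝ) ≤ k := by exact_mod_cast hk1
    linarith
  by_cases h : 2 * m ≤ N
  · exact key m h1 h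
  · have h3 := key (N - m) (by omega) (by omega)
    rw [Nat.cast_sub h2.le] at h3
    have h4 : Real.pi * ((N : ℝ) - m) / N = Real.pi - Real.pi * m / N := by
      field_simp
    rwa [h4, Real.sin_pi_sub] at h3

theorem dec_sec_two {η θ θ' : ℝ} {ξ : V2} (h1 : |rot2 θ ξ 1| < η * ‖rot2 θ ξ‖)
    (h2 : |rot2 θ' ξ 1| < η * ‖rot2 θ' ξ‖) : |Real.sin (θ - θ')| < 2 * η := by
  rw [norm_rot2] at h1 h2
  have e1 : rot2 θ ξ 1 = Real.sin θ * ξ 0 + Real.cos θ * ξ 1 := by simp [rot2]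
  have e2 : rot2 θ' ξ 1 = Real.sin θ' * ξ 0 + Real.cos θ' * ξ 1 := by simp [rot2]
  rw [e1] at h1
  rw [e2] at h2
  set p := Real.sin θ * ξ 0 + Real.cos θ * ξ 1 with hp
  set p' := Real.sin θ' * ξ 0 + Real.cos θ' * ξ 1 with hp'
  have hξ : ‖ξ‖ ^ 2 = ξ 0 ^ 2 + ξ 1 ^ 2 := by
    rw [EuclideanSpace.norm_sq_eq, Fin.sum_univ_two, Real.norm_eq_abs, Real.norm_eq_abs, sq_abs,
      sq_abs]
  have hpos : 0 < η * ‖ξ‖ := (abs_nonneg p).trans_lt h1
  have hξ0 : 0 < ‖ξ‖ := by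
    rcases (norm_nonneg ξ).eq_or_lt with h | h
    · rw [← h, mul_zero] at hpos
      exact absurd hpos (lt_irrefl _)
    · exact h
  have hη : 0 < η := (pos_iff_pos_of_mul_pos hpos).2 hξ0
  have h3 : (Real.sin (θ - θ') * ‖ξ‖) ^ 2 = p ^ 2 + p' ^ 2 - 2 * p * p' * Real.cos (θ - θ') := by
    rw [mul_pow, hξ, Real.sin_sub, Real.cos_sub, hp, hp']
    have s1 := Real.sin_sq_add_cos_sq θ
    have s2 := Real.sin_sq_add_cos_sq θ'
    have c1 : Real.cos θ ^ 2 = 1 - Real.sin θ ^ 2 := by linarith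
    have c2 : Real.cos θ' ^ 2 = 1 - Real.sin θ' ^ 2 := by linarith
    ring_nf
    rw [c1, c2]
    ring
  have h4 : (Real.sin (θ - θ') * ‖ξ‖) ^ 2 ≤ (|p| + |p'|) ^ 2 := by
    rw [h3]
    have h5 := Real.neg_one_le_cos (θ - θ')
    have h6 := Real.cos_le_one (θ - θ')
    have h7 : -(2 * p * p' * Real.cos (θ - θ')) ≤ 2 * (|p| * |p'|) := by
      have h8 : |2 * p * p' * Real.cos (θ - θ')| ≤ 2 * (|p| * |p'|) := by
        rw [abs_mul, abs_mul, abs_mul, abs_two]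
        have h9 : |Real.cos (θ - θ')| ≤ 1 := Real.abs_cos_le_one _
        have h10 : 0 ≤ 2 * |p| * |p'| := by positivity
        nlinarith
      exact (neg_le_abs _).trans h8
    have h11 : p ^ 2 = |p| ^ 2 := (sq_abs p).symm
    have h12 : p' ^ 2 = |p'| ^ 2 := (sq_abs p').symm
    nlinarith
  have h5 : |Real.sin (θ - θ') * ‖ξ‖| ≤ |p| + |p'| := abs_le_of_sq_le_sq h4 (by positivity)
  rw [abs_mul, abs_of_pos hξ0] at h5
  have h6 : |Real.sin (θ - θ')| * ‖ξ‖ < 2 * η * ‖ξ‖ := by linarith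
  exact lt_of_mul_lt_mul_right h6 hξ0.le

theorem sector_sum (f : V2 → ℝ) (h1 : ∀ ξ, f ξ ≤ 1) (η : ℝ) (N : ℕ)
    (hN : N * η ≤ 1) (hsup : ∀ ξ, f ξ ≠ 0 → |ξ 1| < η * ‖ξ‖) (ξ : V2) :
    ∑ j ∈ Finset.range N, f (rot2 (Real.pi * j / N) ξ) ≤ 1 := by
  have hdis : ∀ i j : ℕ, i < j → j < N → f (rot2 (Real.pi * i / N) ξ) ≠ 0 →
      f (rot2 (Real.pi * j / N) ξ) ≠ 0 → False := by
    intro i j hij hj hi0 hj0
    have hN0 : (0 : ℝ) < N := by exact_mod_cast (by omega : 0 < N)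
    have h2 := dec_sec_two (hsup _ hj0) (hsup _ hi0)
    have h3 := dec_sec_sin (N := N) (m := j - i) (by omega) (by omega)
    have h4 : Real.pi * j / N - Real.pi * i / N = Real.pi * ((j - i : ℕ) : ℝ) / N := by
      rw [Nat.cast_sub hij.le]
      ring
    rw [h4] at h2
    have h5 : 2 / (N : ℝ) < 2 * η := h3.trans_lt ((le_abs_self _).trans_lt h2)
    rw [div_lt_iff₀ hN0] at h5
    linarith
  by_cases h : ∃ j ∈ Finset.range N, f (rot2 (Real.pi * j / N) ξ) ≠ 0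
  · obtain ⟨j, hj, hj0⟩ := h
    rw [Finset.sum_eq_single_of_mem j hj]
    · exact h1 _
    · intro i hi hij
      by_contra h0
      rw [Finset.mem_range] at hi hj
      rcases lt_or_gt_of_ne hij with h2 | h2
      · exact hdis i j h2 hj h0 hj0
      · exact hdis j i h2 hi hj0 h0
  · push Not at h
    rw [Finset.sum_eq_zero h]
    exact zero_le_one

end

end Pool.H29.DEC
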