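import Pool.Agent.H29.DEC.Sec
import Pool.Agent.H29.DEC.Pos
import Pool.Agent.H29.DEC.Eqv

/-!
# SECOP: `op` of a function supported in a thin sector is small on rotation invariant vectors

`‖op f φ‖² = re ⟪φ, op (f²) φ⟫`.  For `g = f²`: `k θ (op g φ) = op (g ∘ rot2 (-θ)) (k θ φ)`
(`op_equiv` with `B = rot2 θ`, `C = rot2 (-θ)`), so
`⟪φ, op g φ⟫ = ⟪k θ φ, k θ (op g φ)⟫ = ⟪φ, op (g ∘ rot2 (-θ)) φ⟫` for all `θ`.  Sum over
`-θ = π j / N`, `j < N`, `N = ⌊1/η⌋ ≥ 1` and use `sector_sum`, `op_sum`, `op_le`: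
`N ‖op f φ‖² ≤ ‖φ‖²`, `1/N ≤ 2 η`.
-/

namespace Pool.H29.DEC

open MeasureTheory Filter Topology
open scoped InnerProductSpace

noncomputable section

variable {H : Type} [NormedAddCommGroup H] [InnerProductSpace ℂ H] [CompleteSpace H]

theorem VRep.sector_op (R : VRep V2 H) (k : ℝ → H →L[ℂ] H)
    (hk : ∀ θ x φ, k θ (R.N x φ) = R.N (rot2 θ x) (k θ φ))
    (hiso : ∀ θ φ, ‖k θ φ‖ = ‖φ‖) {φ : H} (hφ : ∀ θ, k θ φ = φ)
    {f : V2 → ℝ} (hf : Tst f) (h1 : ∀ ξ, |f ξ| ≤ 1) {η : ℝ} (hη : 0 < η) (hη' : η ≤ 1)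
    (hsup : ∀ ξ, f ξ ≠ 0 → |ξ 1| < η * ‖ξ‖) : ‖R.op f φ‖ ^ 2 ≤ 2 * η * ‖φ‖ ^ 2 := by
  -- the value does not depend on the rotation
  have hrot : ∀ θ : ℝ, ⟪φ, R.op (fun ξ => f ξ ^ 2) φ⟫_ℂ =
      ⟪φ, R.op (fun ξ => f (rot2 θ ξ) ^ 2) φ⟫_ℂ := by
    intro θ
    obtain ⟨B, hB⟩ := exists_rotL (-θ)
    obtain ⟨C, hC⟩ := exists_rotL θ
    have hBf : (fun x => B x) = rot2 (-θ) := funext hB
    have hCf : (fun x => C x) = rot2 θ := funext hC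
    have h2 := R.op_equiv B C (by rw [hBf]; exact mp_rot2 _) (by rw [hCf]; exact mp_rot2 _)
      (by
        intro x y
        rw [hC, hB]
        have h3 := inner_rot2 (-θ) x y
        rwa [neg_neg] at h3)
      (k (-θ)) (by intro x ψ; rw [hB]; exact hk (-θ) x ψ) hf.sq φ
    have h4 := (LinearIsometry.mk (k (-θ)).toLinearMap (hiso (-θ))).inner_map_map φ
      (R.op (fun ξ => f ξ ^ 2) φ)
    have h5 : ⟪k (-θ) φ, k (-θ) (R.op (fun ξ => f ξ ^ 2) φ)⟫_ℂ =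
      ⟪φ, R.op (fun ξ => f ξ ^ 2) φ⟫_ℂ := h4
    rw [← h5, h2, hφ (-θ)]
    have h6 : (fun ξ => f (C ξ) ^ 2) = fun ξ => f (rot2 θ ξ) ^ 2 := by
      funext ξ; rw [hC]
    rw [h6]
  have hT : ∀ θ : ℝ, Tst (fun ξ => f (rot2 θ ξ) ^ 2) := by
    intro θ
    obtain ⟨C, hC⟩ := exists_rotL θ
    have h6 : (fun ξ => f (rot2 θ ξ) ^ 2) = fun ξ => (fun ζ => f ζ ^ 2) (C ξ) := by
      funext ξ; rw [hC]
    rw [h6]
    exact hf.sq.comp_equiv C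
  set N : ℕ := ⌊1 / η⌋₊ with hN
  have h1η : 1 ≤ 1 / η := by rw [le_div_iff₀ hη]; linarith
  have hN1 : 1 ≤ N := by
    rw [hN, Nat.one_le_floor_iff]
    exact h1η
  have hN0 : (0 : ℝ) < N := by exact_mod_cast hN1
  have hN1' : (1 : ℝ) ≤ N := by exact_mod_cast hN1
  have hNη : N * η ≤ 1 := by
    have h2 : (N : ℝ) ≤ 1 / η := Nat.floor_le (by positivity)
    rwa [le_div_iff₀ hη] at h2
  have hNη2 : 1 ≤ 2 * η * N := by
    have h2 : 1 / η < N + 1 := Nat.lt_floor_add_one _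
    have h3 : 1 / η < 2 * N := by linarith
    rw [div_lt_iff₀ hη] at h3
    linarith
  have hsum := R.op_sum (Finset.range N) (f := fun j ξ => f (rot2 (Real.pi * j / N) ξ) ^ 2)
    (fun j _ => hT _) φ
  have hle := R.op_le (f := fun ξ => ∑ j ∈ Finset.range N, f (rot2 (Real.pi * j / N) ξ) ^ 2)
    (Tst.sum (Finset.range N) (f := fun j ξ => f (rot2 (Real.pi * j / N) ξ) ^ 2)
      (fun j _ => hT _)) zero_le_one
    (fun ξ => sector_sum (fun ζ => f ζ ^ 2) (fun ζ => by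
        have h2 := h1 ζ
        have h3 := abs_nonneg (f ζ)
        rw [← sq_abs]
        nlinarith) η N hNη
      (fun ζ hζ => hsup ζ (fun h0 => hζ (by simp [h0]))) ξ) φ
  rw [hsum, inner_sum, Complex.re_sum, one_mul] at hle
  have h7 : ∀ j ∈ Finset.range N, (⟪φ, R.op (fun ξ => f (rot2 (Real.pi * j / N) ξ) ^ 2) φ⟫_ℂ).re =
      ‖R.op f φ‖ ^ 2 := by
    intro j _
    rw [← hrot, R.op_norm_sq hf]
  rw [Finset.sum_congr rfl h7, Finset.sum_const, Finset.card_range, nsmul_eq_mul] at hle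
  have h8 : (N : ℝ) * ‖R.op f φ‖ ^ 2 ≤ N * (2 * η * ‖φ‖ ^ 2) := by
    refine hle.trans ?_
    have h9 : 0 ≤ ‖φ‖ ^ 2 := sq_nonneg _
    nlinarith
  exact le_of_mul_le_mul_left h8 hN0

end

end Pool.H29.DEC
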